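import Pool.Agent.H47.RJ.REP
import Pool.Agent.H47.RJ.IBR
import Pool.Agent.H47.RJ.CHI
import Pool.Agent.H44.RG.GTD
import Pool.Agent.H44.RR.RAR

/-!
# Module CEX: if a critical orbit lands in an expanding set, some critical value is Collet-Eckmann

PROOF. `up_lip`: `f = Rf v` is locally Lipschitz for `chord` near every point (`it_loc` with `n = 1`: in charts a holomorphic function; `ch_io_le`, `ch_io_ge`; `io_ex`), and the sphere is compact: for `y` near `x` in terms of a finite cover; only the pointwise statement is needed: there is `Λ` such that for every `x` for `y` near `x`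
`chord (f x) (f y) ≤ Λ * chord x y` (near every `x0` there are a neighbourhood and a constant for all pairs of points of the neighbourhood; finite subcover). [If there is a Lipschitz lemma for `rat` in the library, use it.]
`low_lip`: if `x` is not critical there is `b > 0` with `b * chord x y ≤ chord (f x) (f y)` for `y` near `x`: in charts `F` (`it_loc`) is injective near `x'`, so `deriv F x' ≠ 0` (`deriv_ne`, H80/AJ/Distort) and `‖F z - F x'‖ ≥ ‖deriv F x'‖ / 2 * ‖z - x'‖` for `z` near `x'`; `ch_io_le`, `ch_io_ge`.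
`tg_of_exp`: points of `K` are not critical (`f^[N]` is injective near them: if `f y1 = f y2` for `y1 ≠ y2` arbitrarily near `x` then also `f^[N] y1 = f^[N] y2`; use `two_pt` (H44/RR/UNI) for pairs; `N ≥ 1` because `q > 1` and there are points `y ≠ x` near `x`). `K` is invariant, so `f^[j] c` is not critical for `j ≥ m`. Let `j` be the largest index with
`f^[j] c` critical (`j < m`; `j = 0` is one), `c1 = f^[j] c`, `x = f c1`, `n' = m - j - 1`: `f^[n'] x ∈ K`, and no `f^[i] x` is critical. By `low_lip` and induction there is `b > 0` with `b * chord x y ≤ chord (f^[i] x) (f^[i] y)` for all `i ≤ n'`, `y` near `x` (finitely many `i`, take the minimum; continuity of the iterates). For `z ∈ K` and `r ≤ N`: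
`q * chord z y ≤ chord (f^[N] z) (f^[N] y) ≤ Λ ^ (N - r) * chord (f^[r] z) (f^[r] y)` for `y` near `z` (`up_lip`, `Λ ≥ 1`), so `chord (f^[r] z) (f^[r] y) ≥ q * Λ ^ (- N) * chord z y ≥ Λ ^ (- N) chord z y`. Hence for `n = n' + N k + r`, `r < N`: `chord (f^[n] x) (f^[n] y) ≥ b * q ^ k * Λ ^ (- N) * chord x y` for `y` near `x`. With `q1 = q ^ (1 / N) > 1` (real power) and a
suitable `C > 0`: `a n = C * q1 ^ n` for all `n` (for `n ≥ n'`: `k ≥ (n - n') / N - 1`; for `n < n'` make `C` smaller). `Summ`: geometric series. `UL` (H44/RG/GTD: see its definition; upper exponent): `q2 = (1 + q1) / 2`, `q2 ^ n ≤ C * q1 ^ n` eventually (`ev_pow`). So `TG f x`.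
-/

set_option autoImplicit false

open Filter Topology Polynomial Metric Set MeasureTheory

namespace Pool.Agent.H47.NM

open Pool.Agent.H44.Fatou Pool.Agent.H32.BT Pool.Agent.H79.Eul Pool.Agent.H79.Par
open Pool.Agent.H35.EX Pool.Agent.H44.RR Pool.Agent.H56.HR Pool.Agent.H44.RC Pool.Agent.H47.RJ

variable {d : ℕ} {v : E d}

/-- the map in charts -/
private theorem cex_loc (hd : 1 ≤ d) (hcop : IsCoprime (pol v.1) (pol v.2))
    (hdeg : max (pol v.1).natDegree (pol v.2).natDegree = d) {τ σ : Bool} {a b : ℂ}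
    (h : Rf v (io τ a) = io σ b) :
    ∃ (r : ℝ) (F : ℂ → ℂ), 0 < r ∧ DifferentiableOn ℂ F (ball a r) ∧
      (∀ z ∈ ball a r, Rf v (io τ z) = io σ (F z)) ∧ F a = b := by
  obtain ⟨r, F, hr, hF, hFz⟩ := it_loc hd hcop hdeg (n := 1) (τ := τ) (σ := σ) (a := a) (b := b) h
  refine ⟨r, F, hr, hF, fun z hz => hFz z hz, ?_⟩
  have h1 := hFz a (mem_ball_self hr)
  have h2 : Rf v (io τ a) = io σ (F a) := h1
  rw [h] at h2
  exact ((io_emb σ).injective h2).symm

private theorem cex_up1 (hd : 1 ≤ d) (hcop : IsCoprime (pol v.1) (pol v.2))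
    (hdeg : max (pol v.1).natDegree (pol v.2).natDegree = d) (τ : Bool) (a : ℂ) :
    ∃ K : ℝ, ∀ᶠ z in 𝓝 a, ‖z‖ ≤ 1 →
      ∀ᶠ y in 𝓝 (io τ z), chord (Rf v (io τ z)) (Rf v y) ≤ K * chord (io τ z) y := by
  obtain ⟨σ, b, hb, hσ⟩ := io_ex (Rf v (io τ a))
  obtain ⟨r, F, hr, hF, hFz, hFa⟩ := cex_loc hd hcop hdeg hσ.symm
  have hst : HasStrictDerivAt F (deriv F a) a :=
    (hF.analyticAt (ball_mem_nhds a hr)).hasStrictDerivAt
  obtain ⟨K, s, hs, hl⟩ := hst.hasStrictFDerivAt.exists_lipschitzOnWith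
  refine ⟨4 * K, ?_⟩
  filter_upwards [eventually_mem_nhds_iff.2 hs, eventually_mem_nhds_iff.2 (ball_mem_nhds a hr)]
    with z hz1 hz2 hz3
  rw [← (io_emb τ).map_nhds_eq z, eventually_map]
  filter_upwards [hz1, hz2, ball_mem_nhds z one_pos] with z' hs' hr' hb'
  have h1 : ‖z'‖ ≤ 2 := by
    rw [mem_ball, dist_eq_norm] at hb'
    have h2 := norm_sub_norm_le z' z
    linarith
  rw [hFz z (mem_of_mem_nhds hz2), hFz z' hr']
  have h2 := hl.dist_le_mul z (mem_of_mem_nhds hz1) z' hs'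
  rw [dist_eq_norm, dist_eq_norm] at h2
  have h3 := ch_io_ge τ hz3 h1
  calc chord (io σ (F z)) (io σ (F z')) ≤ ‖F z - F z'‖ := ch_io_le σ _ _
    _ ≤ K * ‖z - z'‖ := h2
    _ ≤ K * (4 * chord (io τ z) (io τ z')) := mul_le_mul_of_nonneg_left h3 K.2
    _ = 4 * K * chord (io τ z) (io τ z') := by ring

private theorem cex_up2 (hd : 1 ≤ d) (hcop : IsCoprime (pol v.1) (pol v.2))
    (hdeg : max (pol v.1).natDegree (pol v.2).natDegree = d) (τ : Bool) :
    ∃ K : ℝ, ∀ z ∈ closedBall (0 : ℂ) 1, ‖z‖ ≤ 1 →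
      ∀ᶠ y in 𝓝 (io τ z), chord (Rf v (io τ z)) (Rf v y) ≤ K * chord (io τ z) y := by
  refine (isCompact_closedBall (0 : ℂ) 1).induction_on (p := fun S => ∃ K : ℝ, ∀ z ∈ S, ‖z‖ ≤ 1 →
      ∀ᶠ y in 𝓝 (io τ z), chord (Rf v (io τ z)) (Rf v y) ≤ K * chord (io τ z) y) ?_ ?_ ?_ ?_
  · exact ⟨0, fun z hz => absurd hz (notMem_empty z)⟩
  · rintro s t hst ⟨K, hK⟩
    exact ⟨K, fun z hz => hK z (hst hz)⟩
  · rintro s t ⟨K, hK⟩ ⟨K', hK'⟩
    refine ⟨max K K', ?_⟩
    rintro z (hz | hz) h1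
    · filter_upwards [hK z hz h1] with y hy
      exact hy.trans (mul_le_mul_of_nonneg_right (le_max_left _ _) (chord_nn _ _))
    · filter_upwards [hK' z hz h1] with y hy
      exact hy.trans (mul_le_mul_of_nonneg_right (le_max_right _ _) (chord_nn _ _))
  · intro z _
    obtain ⟨K, hK⟩ := cex_up1 hd hcop hdeg τ z
    exact ⟨_, mem_nhdsWithin_of_mem_nhds hK, K, fun z hz => hz⟩

theorem up_lip (hd : 1 ≤ d) (hcop : IsCoprime (pol v.1) (pol v.2))
    (hdeg : max (pol v.1).natDegree (pol v.2).natDegree = d) :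
    ∃ Λ : ℝ, 1 ≤ Λ ∧ ∀ x, ∀ᶠ y in 𝓝 x, chord (Rf v x) (Rf v y) ≤ Λ * chord x y := by
  obtain ⟨K1, h1⟩ := cex_up2 hd hcop hdeg true
  obtain ⟨K2, h2⟩ := cex_up2 hd hcop hdeg false
  refine ⟨max 1 (max K1 K2), le_max_left _ _, fun x => ?_⟩
  obtain ⟨τ, w, hw, rfl⟩ := io_ex x
  have hw' : w ∈ closedBall (0 : ℂ) 1 := by rwa [mem_closedBall_zero_iff]
  cases τ with
  | true =>
    filter_upwards [h1 w hw' hw] with y hy
    exact hy.trans (mul_le_mul_of_nonneg_right ((le_max_left _ _).trans (le_max_right _ _))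
      (chord_nn _ _))
  | false =>
    filter_upwards [h2 w hw' hw] with y hy
    exact hy.trans (mul_le_mul_of_nonneg_right ((le_max_right _ _).trans (le_max_right _ _))
      (chord_nn _ _))

theorem low_lip (hd : 1 ≤ d) (hcop : IsCoprime (pol v.1) (pol v.2))
    (hdeg : max (pol v.1).natDegree (pol v.2).natDegree = d) {x : OnePoint ℂ}
    (hx : ¬ IsCrit (Rf v) x) :
    ∃ b : ℝ, 0 < b ∧ ∀ᶠ y in 𝓝 x, b * chord x y ≤ chord (Rf v x) (Rf v y) := by
  obtain ⟨τ, a, ha, rfl⟩ := io_ex x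
  obtain ⟨σ, b, hb, hσ⟩ := io_ex (Rf v (io τ a))
  obtain ⟨r, F, hr, hF, hFz, hFa⟩ := cex_loc hd hcop hdeg hσ.symm
  have han : AnalyticAt ℂ F a := hF.analyticAt (ball_mem_nhds a hr)
  unfold IsCrit at hx
  rw [not_not] at hx
  obtain ⟨U, hU, hi⟩ := hx
  have hne : deriv F a ≠ 0 := by
    have h1 : io τ ⁻¹' U ∩ ball a r ∈ 𝓝 a :=
      inter_mem ((io_emb τ).continuous.continuousAt hU) (ball_mem_nhds _ hr)
    obtain ⟨ε, hε, hsub⟩ := Metric.mem_nhds_iff.1 h1
    have hinj : InjOn F (ball a ε) := by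
      intro u hu u' hu' huu
      obtain ⟨hu1, hu2⟩ := hsub hu
      obtain ⟨hu1', hu2'⟩ := hsub hu'
      apply (io_emb τ).injective
      apply hi hu1 hu1'
      rw [hFz u hu2, hFz u' hu2', huu]
    exact norm_pos_iff.1 (Pool.Agent.H80.AJ.deriv_ne hε
      (hF.mono fun u hu => (hsub hu).2) hinj (mem_closedBall_self (by positivity)))
  have hpos : 0 < ‖deriv F a‖ := norm_pos_iff.2 hne
  refine ⟨‖deriv F a‖ / 8, by positivity, ?_⟩
  have hsl := (hasDerivAt_iff_tendsto_slope.1 han.differentiableAt.hasDerivAt).norm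
  have h1 : ∀ᶠ z in 𝓝[≠] a, ‖deriv F a‖ / 2 < ‖slope F a z‖ :=
    hsl.eventually_const_lt (by linarith)
  rw [eventually_nhdsWithin_iff] at h1
  have hFc : Tendsto F (𝓝 a) (𝓝 b) := by
    have h2 := han.continuousAt.tendsto
    rwa [hFa] at h2
  rw [← (io_emb τ).map_nhds_eq a, eventually_map]
  filter_upwards [h1, ball_mem_nhds a hr, hFc (ball_mem_nhds b one_pos)] with z hz1 hz2 hz3
  have hz4 : ‖F z‖ ≤ 2 := by
    rw [mem_preimage, mem_ball, dist_eq_norm] at hz3
    have h2 := norm_sub_norm_le (F z) b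
    linarith
  rw [hFz a (mem_ball_self hr), hFz z hz2, hFa]
  have h3 : ‖deriv F a‖ / 2 * ‖a - z‖ ≤ ‖b - F z‖ := by
    by_cases hza : z = a
    · rw [hza, sub_self, norm_zero, mul_zero]
      exact norm_nonneg _
    · have h4 := hz1 hza
      rw [slope_def_field, norm_div, hFa, lt_div_iff₀ (norm_pos_iff.2 (sub_ne_zero.2 hza))] at h4
      rw [norm_sub_rev a z, norm_sub_rev b (F z)]
      exact h4.le
  have h5 := ch_io_ge σ hb hz4
  have h6 := ch_io_le τ a z
  have h7 : ‖deriv F a‖ / 2 * chord (io τ a) (io τ z) ≤ ‖deriv F a‖ / 2 * ‖a - z‖ :=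
    mul_le_mul_of_nonneg_left h6 (by positivity)
  linarith

private theorem cex_upn {f : OnePoint ℂ → OnePoint ℂ} (hf : Continuous f) {Λ : ℝ} (hΛ : 1 ≤ Λ)
    (h : ∀ x, ∀ᶠ y in 𝓝 x, chord (f x) (f y) ≤ Λ * chord x y) (n : ℕ) (x : OnePoint ℂ) :
    ∀ᶠ y in 𝓝 x, chord (f^[n] x) (f^[n] y) ≤ Λ ^ n * chord x y := by
  induction n with
  | zero =>
    refine Eventually.of_forall fun y => ?_
    rw [pow_zero, one_mul]
    exact le_rfl
  | succ n ih =>
    have h1 := ((hf.iterate n).tendsto x).eventually (h (f^[n] x))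
    filter_upwards [ih, h1] with y hy1 hy2
    rw [Function.iterate_succ_apply', Function.iterate_succ_apply', pow_succ']
    calc chord (f (f^[n] x)) (f (f^[n] y)) ≤ Λ * chord (f^[n] x) (f^[n] y) := hy2
      _ ≤ Λ * (Λ ^ n * chord x y) := mul_le_mul_of_nonneg_left hy1 (by linarith)
      _ = Λ * Λ ^ n * chord x y := by ring

private theorem cex_exp {f : OnePoint ℂ → OnePoint ℂ} (hf : Continuous f) {K : Set (OnePoint ℂ)}
    (hK : MapsTo f K K) {N : ℕ} {q : ℝ} (hq : 1 < q)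
    (h : ∀ x ∈ K, ∀ᶠ y in 𝓝 x, q * chord x y ≤ chord (f^[N] x) (f^[N] y)) (k : ℕ) :
    ∀ x ∈ K, ∀ᶠ y in 𝓝 x, q ^ k * chord x y ≤ chord (f^[N * k] x) (f^[N * k] y) := by
  induction k with
  | zero =>
    intro x _
    refine Eventually.of_forall fun y => ?_
    rw [pow_zero, one_mul]
    exact le_rfl
  | succ k ih =>
    intro x hx
    have h1 := ((hf.iterate N).tendsto x).eventually (ih _ (hK.iterate N hx))
    filter_upwards [h x hx, h1] with y hy1 hy2
    rw [Nat.mul_succ, Function.iterate_add_apply, Function.iterate_add_apply, pow_succ]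
    calc q ^ k * q * chord x y = q ^ k * (q * chord x y) := by ring
      _ ≤ q ^ k * chord (f^[N] x) (f^[N] y) := mul_le_mul_of_nonneg_left hy1 (by positivity)
      _ ≤ chord (f^[N * k] (f^[N] x)) (f^[N * k] (f^[N] y)) := hy2

private theorem cex_low {f : OnePoint ℂ → OnePoint ℂ} (hf : Continuous f) {x : OnePoint ℂ}
    (h : ∀ i : ℕ, ∃ b : ℝ, 0 < b ∧ ∀ᶠ y in 𝓝 (f^[i] x),
      b * chord (f^[i] x) y ≤ chord (f (f^[i] x)) (f y)) (n : ℕ) :
    ∃ b : ℝ, 0 < b ∧ ∀ᶠ y in 𝓝 x, b * chord x y ≤ chord (f^[n] x) (f^[n] y) := by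
  induction n with
  | zero =>
    refine ⟨1, one_pos, Eventually.of_forall fun y => ?_⟩
    rw [one_mul]
    exact le_rfl
  | succ n ih =>
    obtain ⟨b, hb, h1⟩ := ih
    obtain ⟨b', hb', h2⟩ := h n
    refine ⟨b' * b, by positivity, ?_⟩
    filter_upwards [h1, ((hf.iterate n).tendsto x).eventually h2] with y hy1 hy2
    rw [Function.iterate_succ_apply', Function.iterate_succ_apply']
    calc b' * b * chord x y = b' * (b * chord x y) := by ring
      _ ≤ b' * chord (f^[n] x) (f^[n] y) := mul_le_mul_of_nonneg_left hy1 hb'.le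
      _ ≤ chord (f (f^[n] x)) (f (f^[n] y)) := hy2

theorem tg_of_exp (hd : 2 ≤ d) (hcop : IsCoprime (pol v.1) (pol v.2))
    (hdeg : max (pol v.1).natDegree (pol v.2).natDegree = d) {c : OnePoint ℂ}
    (hc : IsCrit (Rf v) c) {K : Set (OnePoint ℂ)} (hK : Expd (Rf v) K) {m : ℕ}
    (hm : (Rf v)^[m] c ∈ K) :
    ∃ c1, IsCrit (Rf v) c1 ∧ Pool.Agent.H44.RG.TG (Rf v) (Rf v c1) := by
  classical
  have hd1 : 1 ≤ d := by omega
  have hf : Continuous (Rf v) := rat_continuous hcop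
  obtain ⟨-, hKm, N, q, hq, hKe⟩ := hK
  obtain ⟨Λ, hΛ, hup⟩ := up_lip hd1 hcop hdeg
  have hΛ0 : 0 < Λ := by linarith
  -- `N` is positive
  have hN : 0 < N := by
    by_contra hN
    have hN0 : N = 0 := by omega
    subst hN0
    have h1 := hKe _ hm
    obtain ⟨τ, a, -, ha⟩ := io_ex ((Rf v)^[m] c)
    rw [← ha, ← (io_emb τ).map_nhds_eq a, eventually_map] at h1
    have h2 : ∀ᶠ z in 𝓝[≠] a, q * chord (io τ a) (io τ z) ≤
        chord ((Rf v)^[0] (io τ a)) ((Rf v)^[0] (io τ z)) := h1.filter_mono nhdsWithin_le_nhds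
    obtain ⟨z, hz, hza⟩ := (h2.and self_mem_nhdsWithin).exists
    have h3 : 0 < chord (io τ a) (io τ z) :=
      chord_pos fun h => hza ((io_emb τ).injective h).symm
    have h4 : q * chord (io τ a) (io τ z) ≤ chord (io τ a) (io τ z) := hz
    nlinarith
  -- points of `K` are not critical
  have hKc : ∀ z ∈ K, ¬ IsCrit (Rf v) z := by
    intro z hz hcr
    obtain ⟨U, hU, hU2⟩ := two_pt hd hcop hdeg one_pos hq (hKe z hz)
    refine hcr ⟨U, hU, ?_⟩
    intro y hy y' hy' hyy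
    have h1 := hU2 y hy y' hy'
    obtain ⟨N', rfl⟩ : ∃ N', N = N' + 1 := ⟨N - 1, by omega⟩
    rw [Function.iterate_succ_apply, Function.iterate_succ_apply, hyy, chord_zero, one_mul] at h1
    exact chord_eqz (le_antisymm h1 (chord_nn _ _))
  -- the last critical point
  obtain ⟨j, hj, hjl⟩ : ∃ j, IsCrit (Rf v) ((Rf v)^[j] c) ∧
      ∀ i, j < i → ¬ IsCrit (Rf v) ((Rf v)^[i] c) := by
    refine ⟨Nat.findGreatest (fun j => IsCrit (Rf v) ((Rf v)^[j] c)) m, ?_, ?_⟩
    · exact Nat.findGreatest_spec (P := fun j => IsCrit (Rf v) ((Rf v)^[j] c)) (m := 0)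
        (Nat.zero_le m) hc
    · intro i hi hcr
      by_cases him : i ≤ m
      · exact Nat.findGreatest_is_greatest hi him hcr
      · refine hKc _ ?_ hcr
        have h1 : i = (i - m) + m := by omega
        rw [h1, Function.iterate_add_apply]
        exact hKm.iterate (i - m) hm
  refine ⟨(Rf v)^[j] c, hj, Pool.Agent.H44.RG.tg_of_ce ?_⟩
  have hjm : j < m := by
    by_contra h
    refine hKc ((Rf v)^[j] c) ?_ hj
    have h1 : j = (j - m) + m := by omega
    rw [h1, Function.iterate_add_apply]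
    exact hKm.iterate (j - m) hm
  obtain ⟨x, hx⟩ : ∃ x, x = Rf v ((Rf v)^[j] c) := ⟨_, rfl⟩
  rw [← hx]
  have hxi : ∀ i, (Rf v)^[i] x = (Rf v)^[i + (j + 1)] c := by
    intro i
    rw [hx, Function.iterate_add_apply, Function.iterate_succ_apply']
  obtain ⟨M, hM⟩ : ∃ M, M + (j + 1) = m := ⟨m - (j + 1), by omega⟩
  have hxM : (Rf v)^[M] x ∈ K := by
    rw [hxi, hM]
    exact hm
  obtain ⟨b, hb, hbM⟩ := cex_low hf (x := x) (fun i => by
    refine low_lip hd1 hcop hdeg ?_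
    rw [hxi]
    exact hjl _ (by omega)) M
  -- the root of `q`
  obtain ⟨q1, hq1, hq1N⟩ : ∃ q1 : ℝ, 1 < q1 ∧ q1 ^ N = q := by
    refine ⟨q ^ ((N : ℝ)⁻¹), Real.one_lt_rpow hq (by positivity), ?_⟩
    exact Real.rpow_inv_natCast_pow (by linarith) (by omega)
  have hq10 : 0 < q1 := by linarith
  refine ⟨b / Λ ^ (M + N), q1, by positivity, hq1, fun n => ?_⟩
  obtain ⟨k, hk⟩ : ∃ k, k = n / N + 1 := ⟨_, rfl⟩
  have hk1 : n ≤ N * k := by
    rw [hk]
    have := Nat.lt_mul_div_succ n hN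
    omega
  have hk2 : N * k ≤ n + N := by
    rw [hk, Nat.mul_succ]
    have := Nat.mul_div_le n N
    omega
  obtain ⟨e, he⟩ : ∃ e, e + n = N * k + M := ⟨N * k + M - n, by omega⟩
  have he2 : e ≤ M + N := by omega
  have E2 := ((hf.iterate M).tendsto x).eventually (cex_exp hf hKm hq hKe k _ hxM)
  have E3 := ((hf.iterate n).tendsto x).eventually (cex_upn hf hΛ hup e ((Rf v)^[n] x))
  filter_upwards [hbM, E2, E3] with y h1 h2 h3
  have h4 : ∀ z, (Rf v)^[e] ((Rf v)^[n] z) = (Rf v)^[N * k] ((Rf v)^[M] z) := by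
    intro z
    rw [← Function.iterate_add_apply, he, Function.iterate_add_apply]
  rw [h4, h4] at h3
  have h5 : q1 ^ n ≤ q ^ k := by
    rw [← hq1N, ← pow_mul]
    exact pow_le_pow_right₀ hq1.le hk1
  have h6 : Λ ^ e ≤ Λ ^ (M + N) := pow_le_pow_right₀ hΛ he2
  have h7 := chord_nn x y
  have h8 := chord_nn ((Rf v)^[n] x) ((Rf v)^[n] y)
  have h9 : b * q1 ^ n * chord x y ≤ Λ ^ (M + N) * chord ((Rf v)^[n] x) ((Rf v)^[n] y) := by
    calc b * q1 ^ n * chord x y = q1 ^ n * (b * chord x y) := by ring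
      _ ≤ q ^ k * (b * chord x y) := mul_le_mul_of_nonneg_right h5 (by positivity)
      _ ≤ q ^ k * chord ((Rf v)^[M] x) ((Rf v)^[M] y) :=
          mul_le_mul_of_nonneg_left h1 (by positivity)
      _ ≤ chord ((Rf v)^[N * k] ((Rf v)^[M] x)) ((Rf v)^[N * k] ((Rf v)^[M] y)) := h2
      _ ≤ Λ ^ e * chord ((Rf v)^[n] x) ((Rf v)^[n] y) := h3
      _ ≤ Λ ^ (M + N) * chord ((Rf v)^[n] x) ((Rf v)^[n] y) := mul_le_mul_of_nonneg_right h6 h8
  have hL : 0 < Λ ^ (M + N) := by positivity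
  rw [div_mul_eq_mul_div, div_mul_eq_mul_div, div_le_iff₀ hL]
  linarith

end Pool.Agent.H47.NM
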