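import Pool.Agent.H47.NM.Defs
import Pool.Agent.H79.Par.CopNear

/-!
# Module MES: measurability (as MES of H47/NN)
-/

set_option autoImplicit false

open Filter Topology Polynomial Metric Set MeasureTheory

namespace Pool.Agent.H47.NM

open Pool.Agent.H44.Fatou Pool.Agent.H79.Eul Pool.Agent.H79.Par Pool.Agent.H47.NN

/-- the conditions of a neutral cycle, bounded by `k` -/
private def Sk (d p k : ℕ) : Set (E d × closedBall (0 : Fin (p + 1) → ℂ) k) :=
  {q | (∀ i : Fin p, 1 / ((k : ℝ) + 1) ≤ ‖ev q.1.2 (q.2.1 i.castSucc)‖) ∧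
    (∀ i : Fin p, ev q.1.1 (q.2.1 i.castSucc) = ev q.1.2 (q.2.1 i.castSucc) * q.2.1 i.succ) ∧
    q.2.1 (Fin.last p) = q.2.1 0 ∧
    ‖∏ i : Fin p, (dev q.1.1 (q.2.1 i.castSucc) * ev q.1.2 (q.2.1 i.castSucc) -
      ev q.1.1 (q.2.1 i.castSucc) * dev q.1.2 (q.2.1 i.castSucc))‖ =
      ‖∏ i : Fin p, (ev q.1.2 (q.2.1 i.castSucc)) ^ 2‖}

private theorem Sk_closed (d p k : ℕ) : IsClosed (Sk d p k) := by
  have x0 : Continuous fun q : E d × closedBall (0 : Fin (p + 1) → ℂ) k => q.2.1 :=
    continuous_subtype_val.comp continuous_snd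
  have x1 : ∀ i : Fin (p + 1), Continuous fun q : E d × closedBall (0 : Fin (p + 1) → ℂ) k => q.2.1 i :=
    fun i => (continuous_apply i).comp x0
  have x2 : ∀ i : Fin (p + 1), Continuous fun q : E d × closedBall (0 : Fin (p + 1) → ℂ) k =>
      ev q.1.1 (q.2.1 i) := by
    intro i
    have := x1 i
    unfold ev
    fun_prop
  have x3 : ∀ i : Fin (p + 1), Continuous fun q : E d × closedBall (0 : Fin (p + 1) → ℂ) k =>
      ev q.1.2 (q.2.1 i) := by
    intro i
    have := x1 i
    unfold ev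
    fun_prop
  have x4 : ∀ i : Fin (p + 1), Continuous fun q : E d × closedBall (0 : Fin (p + 1) → ℂ) k =>
      dev q.1.1 (q.2.1 i) := by
    intro i
    have := x1 i
    unfold dev
    fun_prop
  have x5 : ∀ i : Fin (p + 1), Continuous fun q : E d × closedBall (0 : Fin (p + 1) → ℂ) k =>
      dev q.1.2 (q.2.1 i) := by
    intro i
    have := x1 i
    unfold dev
    fun_prop
  have c1 : IsClosed {q : E d × closedBall (0 : Fin (p + 1) → ℂ) k |
      ∀ i : Fin p, 1 / ((k : ℝ) + 1) ≤ ‖ev q.1.2 (q.2.1 i.castSucc)‖} := by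
    rw [ofPred_forall]
    exact isClosed_iInter fun i => isClosed_le continuous_const (x3 _).norm
  have c2 : IsClosed {q : E d × closedBall (0 : Fin (p + 1) → ℂ) k |
      ∀ i : Fin p, ev q.1.1 (q.2.1 i.castSucc) = ev q.1.2 (q.2.1 i.castSucc) * q.2.1 i.succ} := by
    rw [ofPred_forall]
    exact isClosed_iInter fun i => isClosed_eq (x2 _) ((x3 _).mul (x1 _))
  have c3 : IsClosed {q : E d × closedBall (0 : Fin (p + 1) → ℂ) k | q.2.1 (Fin.last p) = q.2.1 0} :=
    isClosed_eq (x1 _) (x1 _)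
  have c4 : IsClosed {q : E d × closedBall (0 : Fin (p + 1) → ℂ) k |
      ‖∏ i : Fin p, (dev q.1.1 (q.2.1 i.castSucc) * ev q.1.2 (q.2.1 i.castSucc) -
      ev q.1.1 (q.2.1 i.castSucc) * dev q.1.2 (q.2.1 i.castSucc))‖ =
      ‖∏ i : Fin p, (ev q.1.2 (q.2.1 i.castSucc)) ^ 2‖} := by
    refine isClosed_eq ?_ ?_
    · exact (continuous_finsetProd _ fun i _ => ((x4 _).mul (x3 _)).sub ((x2 _).mul (x5 _))).norm
    · exact (continuous_finsetProd _ fun i _ => (x3 _).pow 2).norm
  exact c1.inter (c2.inter (c3.inter c4))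

private theorem wr_eval {d : ℕ} (v : E d) (z : ℂ) :
    (Wr (pol v.1) (pol v.2)).eval z = dev v.1 z * ev v.2 z - ev v.1 z * dev v.2 z := by
  unfold Wr
  rw [eval_sub, eval_mul, eval_mul, pol_deriv_eval, pol_deriv_eval, pol_eval, pol_eval]

theorem cs_meas (d p : ℕ) : MeasurableSet {v : E d | ∃ x m, Cyc (pol v.1) (pol v.2) p x m ∧ ‖m‖ = 1} := by
  have hE : {v : E d | ∃ x m, Cyc (pol v.1) (pol v.2) p x m ∧ ‖m‖ = 1} = ⋃ k : ℕ, Prod.fst '' (Sk d p k) := by
    ext v
    constructor
    · rintro ⟨x, m, hc, hm⟩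
      rw [mem_iUnion]
      obtain ⟨k, hk⟩ := exists_nat_ge (∑ i ∈ Finset.range (p + 1), ‖x i‖ +
        ∑ i ∈ Finset.range p, 1 / ‖(pol v.2).eval (x i)‖)
      have s1 : 0 ≤ ∑ i ∈ Finset.range (p + 1), ‖x i‖ := Finset.sum_nonneg fun i _ => norm_nonneg _
      have s2 : 0 ≤ ∑ i ∈ Finset.range p, 1 / ‖(pol v.2).eval (x i)‖ :=
        Finset.sum_nonneg fun i _ => by positivity
      have k1 : ∀ i, i < p + 1 → ‖x i‖ ≤ k := by
        intro i hi
        have := Finset.single_le_sum (f := fun i => ‖x i‖) (fun j _ => norm_nonneg _) (Finset.mem_range.2 hi)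
        linarith
      have k2 : ∀ i, i < p → 1 / ((k : ℝ) + 1) ≤ ‖(pol v.2).eval (x i)‖ := by
        intro i hi
        have h1 := Finset.single_le_sum (f := fun i => 1 / ‖(pol v.2).eval (x i)‖)
          (fun j _ => by positivity) (Finset.mem_range.2 hi)
        have h2 : 0 < ‖(pol v.2).eval (x i)‖ := norm_pos_iff.2 (hc.ne i hi)
        have h3 : 1 / ‖(pol v.2).eval (x i)‖ ≤ (k : ℝ) + 1 := by linarith
        have hk0 : (0 : ℝ) < (k : ℝ) + 1 := by positivity
        rw [div_le_iff₀ h2] at h3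
        rw [div_le_iff₀ hk0]
        linarith
      have xm : (fun i : Fin (p + 1) => x i) ∈ closedBall (0 : Fin (p + 1) → ℂ) k := by
        rw [mem_closedBall_zero_iff, pi_norm_le_iff_of_nonneg (Nat.cast_nonneg k)]
        intro i
        exact k1 i i.2
      refine ⟨k, (v, ⟨fun i => x i, xm⟩), ⟨?_, ?_, ?_, ?_⟩, rfl⟩
      · intro i
        simp only [Fin.val_castSucc]
        rw [← pol_eval]
        exact k2 i i.2
      · intro i
        simp only [Fin.val_castSucc, Fin.val_succ]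
        rw [← pol_eval, ← pol_eval]
        have h1 := hc.step i i.2
        rw [div_eq_iff (hc.ne i i.2)] at h1
        rw [h1, mul_comm]
      · simp only [Fin.val_last, Fin.val_zero]
        exact hc.per
      · simp only [Fin.val_castSucc]
        have h1 : ∏ i : Fin p, (dev v.1 (x i) * ev v.2 (x i) - ev v.1 (x i) * dev v.2 (x i)) =
            ∏ i ∈ Finset.range p, (Wr (pol v.1) (pol v.2)).eval (x i) := by
          rw [Finset.prod_range]
          exact Finset.prod_congr rfl fun i _ => (wr_eval v _).symm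
        have h2 : ∏ i : Fin p, (ev v.2 (x i)) ^ 2 = ∏ i ∈ Finset.range p, ((pol v.2).eval (x i)) ^ 2 := by
          rw [Finset.prod_range]
          exact Finset.prod_congr rfl fun i _ => by rw [pol_eval]
        rw [h1, h2]
        have h3 := hc.mul
        rw [Finset.prod_div_distrib] at h3
        have h4 : ∏ i ∈ Finset.range p, ((pol v.2).eval (x i)) ^ 2 ≠ 0 :=
          Finset.prod_ne_zero_iff.2 fun i hi => pow_ne_zero 2 (hc.ne i (Finset.mem_range.1 hi))
        rw [div_eq_iff h4] at h3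
        rw [h3, norm_mul, hm, one_mul]
    · intro hk
      rw [mem_iUnion] at hk
      obtain ⟨k, ⟨v', x, hx⟩, ⟨h1, h2, h3, h4⟩, rfl⟩ := hk
      simp only at h1 h2 h3 h4
      obtain ⟨X', hX⟩ : ∃ X' : ℕ → ℂ, ∀ i : Fin (p + 1), X' i = x i :=
        ⟨fun n => if h : n < p + 1 then x ⟨n, h⟩ else 0, fun i => by
          simp only
          rw [dif_pos i.2]⟩
      have hX1 : ∀ i : Fin p, X' i = x i.castSucc := fun i => hX i.castSucc
      have hX2 : ∀ i : Fin p, X' (i + 1) = x i.succ := fun i => hX i.succ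
      have hne : ∀ i, i < p → (pol v'.2).eval (X' i) ≠ 0 := by
        intro i hi
        have h5 := h1 ⟨i, hi⟩
        have h6 := hX1 ⟨i, hi⟩
        simp only at h6
        rw [pol_eval, h6]
        intro h0
        rw [h0, norm_zero] at h5
        have : (0 : ℝ) < 1 / ((k : ℝ) + 1) := by positivity
        linarith
      refine ⟨X', _, ⟨hne, ?_, ?_, rfl⟩, ?_⟩
      · intro i hi
        have h5 := h2 ⟨i, hi⟩
        have h6 := hX1 ⟨i, hi⟩
        have h7 := hX2 ⟨i, hi⟩
        simp only at h6 h7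
        rw [div_eq_iff (hne i hi), pol_eval, pol_eval, h6, h7, h5, mul_comm]
      · have h5 := hX (Fin.last p)
        have h6 := hX 0
        rw [Fin.val_last] at h5
        rw [Fin.val_zero] at h6
        rw [h5, h6, h3]
      · have e1 : ∏ i : Fin p, (dev v'.1 (x i.castSucc) * ev v'.2 (x i.castSucc) -
            ev v'.1 (x i.castSucc) * dev v'.2 (x i.castSucc)) =
            ∏ i ∈ Finset.range p, (Wr (pol v'.1) (pol v'.2)).eval (X' i) := by
          rw [Finset.prod_range]
          exact Finset.prod_congr rfl fun i _ => by rw [wr_eval, hX1]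
        have e2 : ∏ i : Fin p, (ev v'.2 (x i.castSucc)) ^ 2 =
            ∏ i ∈ Finset.range p, ((pol v'.2).eval (X' i)) ^ 2 := by
          rw [Finset.prod_range]
          exact Finset.prod_congr rfl fun i _ => by rw [pol_eval, hX1]
        rw [Finset.prod_div_distrib, norm_div, ← e1, ← e2, h4]
        refine div_self ?_
        rw [e2, norm_ne_zero_iff]
        exact Finset.prod_ne_zero_iff.2 fun i hi => pow_ne_zero 2 (hne i (Finset.mem_range.1 hi))
  rw [hE]
  exact MeasurableSet.iUnion fun k =>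
    (isClosedMap_fst_of_compactSpace _ (Sk_closed d p k)).measurableSet


theorem ex_cont (d m : ℕ) : Continuous (ex d m) := by
  unfold ex
  refine continuous_fst.prodMk (continuous_pi fun i => ?_)
  by_cases h : (i : ℕ) < d - m + 1
  · simp only [h, dite_true]
    exact (continuous_apply _).comp continuous_snd
  · simp only [h, dite_false]
    exact continuous_const

theorem ex_pol {d m : ℕ} (x : Em d m) :
    pol (ex d m x).1 = pol x.1 ∧ pol (ex d m x).2 = pol x.2 := by
  refine ⟨rfl, ?_⟩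
  unfold pol ex
  simp only
  have h1 : ∀ n : ℕ, ∀ y : Fin (n + 1) → ℂ, ∀ N : ℕ, n ≤ N →
      ∑ i : Fin (N + 1), C (if h : (i : ℕ) < n + 1 then y ⟨i, h⟩ else 0) * X ^ (i : ℕ) =
        ∑ i : Fin (n + 1), C (y i) * X ^ (i : ℕ) := by
    intro n y N hN
    obtain ⟨g, hg⟩ : ∃ g : ℕ → Polynomial ℂ, ∀ i : ℕ, g i =
      C (if h : (i : ℕ) < n + 1 then y ⟨i, h⟩ else 0) * X ^ i := ⟨_, fun i => rfl⟩
    have e1 : ∑ i : Fin (N + 1), C (if h : (i : ℕ) < n + 1 then y ⟨i, h⟩ else 0) * X ^ (i : ℕ) =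
        ∑ i ∈ Finset.range (N + 1), g i := by
      rw [Finset.sum_range]
      exact Finset.sum_congr rfl fun i _ => (hg i).symm
    have e2 : ∑ i : Fin (n + 1), C (y i) * X ^ (i : ℕ) = ∑ i ∈ Finset.range (n + 1), g i := by
      rw [Finset.sum_range]
      refine Finset.sum_congr rfl fun i _ => ?_
      rw [hg, dif_pos i.2]
    rw [e1, e2]
    symm
    refine Finset.sum_subset (fun i hi => ?_) fun i _ hi => ?_
    · rw [Finset.mem_range] at hi ⊢
      omega
    · rw [Finset.mem_range] at hi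
      rw [hg, dif_neg hi, C_0, zero_mul]
  exact h1 (d - m) x.2 d (Nat.sub_le _ _)

theorem cop_open {d m : ℕ} (hd : 1 ≤ d) :
    IsOpen {x : Em d m | IsCoprime (pol x.1) (pol x.2) ∧
      max (pol x.1).natDegree (pol x.2).natDegree = d} := by
  have h1 : IsOpen {v : E d | IsCoprime (pol v.1) (pol v.2) ∧
      max (pol v.1).natDegree (pol v.2).natDegree = d} := by
    rw [isOpen_iff_eventually]
    rintro v0 ⟨h1, h2⟩
    exact cop_near h1 h2 hd
  have h2 := h1.preimage (ex_cont d m)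
  refine (congrArg IsOpen ?_).mp h2
  ext x
  show _ ∧ _ ↔ _ ∧ _
  rw [(ex_pol x).1, (ex_pol x).2]

end Pool.Agent.H47.NM
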