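import Pool.Agent.H47.NM.CEX
import Pool.Agent.H47.NM.MES
import Pool.Agent.H9.GP.All

/-!
# Module RAM: in the families critical orbits land in expanding sets for a null set of maps only
-/

set_option autoImplicit false

open Filter Topology Polynomial Metric Set MeasureTheory

namespace Pool.Agent.H47.NM

open Pool.Agent.H44.Fatou Pool.Agent.H32.BT Pool.Agent.H79.Eul Pool.Agent.H79.Par
open Pool.Agent.H35.EX Pool.Agent.H44.RR Pool.Agent.H56.HR Pool.Agent.H44.RC Pool.Agent.H47.RJ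

theorem rare_m {d m : ℕ} (hm : 2 ≤ m) (hmd : m ≤ d) :
    volume {x : Em d m | IsCoprime (pol x.1) (pol x.2) ∧
      max (pol x.1).natDegree (pol x.2).natDegree = d ∧ ∃ c, IsCrit (Rf (ex d m x)) c ∧
        ∃ K : Set (OnePoint ℂ), Expd (Rf (ex d m x)) K ∧
          ∃ n : ℕ, (Rf (ex d m x))^[n] c ∈ K} = 0 := by
  refine measure_mono_null ?_ (Pool.Agent.H9.GP.family_null hm hmd)
  rintro x ⟨h1, h2, c, hc, K, hK, n, hn⟩
  have e : Rf (ex d m x) = rat (pol x.1) (pol x.2) := by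
    unfold Rf
    rw [(ex_pol x).1, (ex_pol x).2]
  obtain ⟨c1, hc1, hT⟩ := tg_of_exp (v := ex d m x) (by omega)
    (by rw [(ex_pol x).1, (ex_pol x).2]; exact h1)
    (by rw [(ex_pol x).1, (ex_pol x).2]; exact h2) hc hK hn
  rw [e] at hc1 hT
  exact ⟨h1, h2, c1, hc1, hT⟩

end Pool.Agent.H47.NM
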