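import Pool.Agent.H47.NM.ARM
import Pool.Agent.H47.NM.RAM
import Pool.Agent.H47.RJ.R2M
import Pool.Agent.H47.RJ.ENR
import Pool.Agent.H47.RJ.FJM
import Pool.Agent.H47.RJ.JT6
import Pool.Agent.H47.NN.FIN
import Pool.Agent.H44.RC.MANE
import Pool.Agent.H76.SU.MAI

/-!
# THEOREM RC, uniform form

`good`: the conclusion for one map with only attracting and repelling cycles, such that no critical orbit lands in an expanding set. `rc_zero`: almost every rational map of degree `d`;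
`rc_fam`: almost every map of the family with a fixed point of local degree at least `m` at infinity, `m ≥ 2`.
-/

set_option autoImplicit false

open Filter Topology Polynomial Metric Set MeasureTheory

namespace Pool.Agent.H47.NM

open Pool.Agent.H44.Fatou Pool.Agent.H32.BT Pool.Agent.H79.Eul Pool.Agent.H79.Par
open Pool.Agent.H35.EX Pool.Agent.H44.RR Pool.Agent.H56.HR Pool.Agent.H44.RC Pool.Agent.H47.RJ

variable {d : ℕ} {v : E d}

/-- the conclusion of THEOREM RC -/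
def Concl (f : OnePoint ℂ → OnePoint ℂ) : Prop :=
  (∀ c, IsCrit f c → c ∈ JS f → ∃ r, IsCrit f r ∧ r ∈ JS f ∧ r ∈ Om f r ∧
    (Om f c ∩ Om f r).Nonempty) ∧
  (HypMap f ∨ ∃ r, IsCrit f r ∧ r ∈ JS f ∧ r ∈ Om f r)

theorem nw_all (hd : 2 ≤ d) (hcop : IsCoprime (pol v.1) (pol v.2))
    (hdeg : max (pol v.1).natDegree (pol v.2).natDegree = d) : NW (Rf v) := by
  intro x hx
  obtain ⟨m, n, hmn, he⟩ := Pool.Agent.H76.SU.sullivan hd hcop hdeg hx
  refine ⟨m, n, hmn, ?_⟩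
  rw [he]
  exact mem_connectedComponentIn ((fs_iff (by omega) hcop hdeg n x).2 hx)

theorem manec (hd : 2 ≤ d) (hcop : IsCoprime (pol v.1) (pol v.2))
    (hdeg : max (pol v.1).natDegree (pol v.2).natDegree = d) (hF : FJ (Rf v)) :
    ManeC (Rf v) := by
  intro L _ hLJ _ hR
  exact mane hcop (by rw [hdeg]; omega) hR hLJ (jt6 hd hcop hdeg) hF

theorem good (hd : 2 ≤ d) (hcop : IsCoprime (pol v.1) (pol v.2))
    (hdeg : max (pol v.1).natDegree (pol v.2).natDegree = d) (hN : AR v)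
    (hrare : ∀ c, IsCrit (Rf v) c → ¬ ∃ K : Set (OnePoint ℂ), Expd (Rf v) K ∧
      ∃ m : ℕ, (Rf v)^[m] c ∈ K) : Concl (Rf v) := by
  have hd1 : 1 ≤ d := by omega
  have hW := nw_all hd hcop hdeg
  have hF : FJ (Rf v) := fj_of_nw_ar hd1 hcop hdeg hN hW
  have hM := manec hd hcop hdeg hF
  have h1 : ∀ c, IsCrit (Rf v) c → c ∈ JS (Rf v) → ∃ r, IsCrit (Rf v) r ∧ r ∈ JS (Rf v) ∧
      r ∈ Om (Rf v) r ∧ (Om (Rf v) c ∩ Om (Rf v) r).Nonempty :=
    fun c hc hJ => rc2_det hd hcop hdeg hF hM hrare hc hJ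
  refine ⟨h1, ?_⟩
  by_cases hJ : ∃ c, IsCrit (Rf v) c ∧ c ∈ JS (Rf v)
  · obtain ⟨c, hc, hcJ⟩ := hJ
    obtain ⟨r, hr1, hr2, hr3, -⟩ := h1 c hc hcJ
    exact Or.inr ⟨r, hr1, hr2, hr3⟩
  · push Not at hJ
    left
    have hinv : MapsTo (Rf v) (JS (Rf v)) (JS (Rf v)) := fun x hx =>
      (js_iff hd1 hcop hdeg 1 x).2 hx
    have hE : Expd (Rf v) (JS (Rf v)) := by
      refine exp7 hd hcop hdeg (js_closed _) subset_rfl hinv (fun x hx hc => hJ x hc hx) ?_
      refine hM _ (js_closed _) subset_rfl hinv ?_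
      exact rl_of (rat_continuous hcop) hF (js_closed _) subset_rfl
        fun c hc _ hcJ => absurd hcJ (hJ c hc)
    intro c hc
    by_contra hna
    have hcF : c ∈ FS (Rf v) := by
      by_contra h
      exact hJ c hc h
    obtain ⟨p, z0, b, ψ, hR⟩ := rot_of_nonatt_ar hd1 hcop hdeg hN hW hcF hna
    exact exp_norot hd hcop hdeg hF hE hR

theorem rc_zero (hd : 2 ≤ d) :
    volume {v : E d | IsCoprime (pol v.1) (pol v.2) ∧
      max (pol v.1).natDegree (pol v.2).natDegree = d ∧ ¬ Concl (Rf v)} = 0 := by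
  refine measure_mono_null ?_ (measure_union_null (Pool.Agent.H47.NN.nn hd) (rare hd))
  rintro v ⟨h1, h2, h3⟩
  by_cases hN : Pool.Agent.H47.NN.NNeu v
  · right
    refine ⟨h1, h2, ?_⟩
    by_contra h4
    push Not at h4
    refine h3 (good hd h1 h2 (ar_of_nneu (by omega) h1 h2 hN) ?_)
    rintro c hc ⟨K, hK, m, hm⟩
    exact h4 c hc K hK m hm
  · exact Or.inl ⟨h1, h2, hN⟩

theorem rc_fam {m : ℕ} (hm : 2 ≤ m) (hmd : m ≤ d) :
    volume {x : Em d m | IsCoprime (pol x.1) (pol x.2) ∧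
      max (pol x.1).natDegree (pol x.2).natDegree = d ∧ ¬ Concl (Rf (ex d m x))} = 0 := by
  refine measure_mono_null ?_ (measure_union_null (ar_ae hm hmd) (rare_m hm hmd))
  rintro x ⟨h1, h2, h3⟩
  by_cases hN : AR (ex d m x)
  · right
    refine ⟨h1, h2, ?_⟩
    by_contra h4
    push Not at h4
    refine h3 (good (by omega) (by rw [(ex_pol x).1, (ex_pol x).2]; exact h1)
      (by rw [(ex_pol x).1, (ex_pol x).2]; exact h2) hN ?_)
    rintro c hc ⟨K, hK, n, hn⟩
    exact h4 c hc K hK n hn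
  · exact Or.inl ⟨h1, h2, hN⟩

end Pool.Agent.H47.NM
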