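import Mathlib

/-!
# Module FUB: null sets and the scaling of the first factor (as FUB of H47/NN)
-/

set_option autoImplicit false

open Filter Topology Polynomial Metric Set MeasureTheory

namespace Pool.Agent.H47.NM

/-- pairs of vectors -/
private abbrev G2 (k n : ℕ) : Type := (Fin k → ℂ) × (Fin n → ℂ)

theorem fub_m {k n : ℕ} {S : Set (G2 k n)} (hS : MeasurableSet S)
    (h : ∀ v : G2 k n, volume {t : ℂ | t ≠ 0 ∧ ((t • v.1, v.2) : G2 k n) ∈ S} = 0) :
    volume S = 0 := by
  haveI hH : Measure.IsAddHaarMeasure (volume : Measure (G2 k n)) :=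
    Measure.prod.instIsAddHaarMeasure (volume : Measure (Fin k → ℂ))
      (volume : Measure (Fin n → ℂ))
  let T : Set (G2 k n × ℂ) := {p | p.2 ≠ 0 ∧ ((p.2 • p.1.1, p.1.2) : G2 k n) ∈ S}
  have hc : Continuous (fun p : G2 k n × ℂ => ((p.2 • p.1.1, p.1.2) : G2 k n)) := by
    fun_prop
  have hTm : MeasurableSet T := by
    have h1 : MeasurableSet {p : G2 k n × ℂ | p.2 ≠ 0} :=
      (measurable_snd (measurableSet_singleton (0 : ℂ)).compl : _)
    have h2 : MeasurableSet {p : G2 k n × ℂ | ((p.2 • p.1.1, p.1.2) : G2 k n) ∈ S} := hc.measurable hS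
    exact h1.inter h2
  have hT : ((volume : Measure (G2 k n)).prod (volume : Measure ℂ)) T = 0 := by
    rw [Measure.measure_prod_null hTm]
    exact Filter.Eventually.of_forall fun v => h v
  have hT2 : ((volume : Measure ℂ).prod (volume : Measure (G2 k n))) (Prod.swap ⁻¹' T) = 0 := by
    have h3 : ((volume : Measure ℂ).prod (volume : Measure (G2 k n))).map Prod.swap = (volume : Measure (G2 k n)).prod (volume : Measure ℂ) :=
      Measure.prod_swap
    rw [← h3, Measure.map_apply measurable_swap hTm] at hT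
    exact hT
  have hae := Measure.measure_ae_null_of_prod_null hT2
  have hne : ∀ᵐ t : ℂ, t ≠ 0 := by
    have : (volume : Measure ℂ) {0} = 0 := measure_singleton 0
    exact measure_eq_zero_iff_ae_notMem.1 this
  obtain ⟨t, ht1, ht0⟩ := (hae.and hne).exists
  let L : G2 k n ≃ₗ[ℝ] G2 k n := LinearEquiv.prodCongr
    ((LinearEquiv.smulOfNeZero ℂ (Fin k → ℂ) t ht0).restrictScalars ℝ)
    (LinearEquiv.refl ℝ (Fin n → ℂ))
  have hL : ∀ v : G2 k n, L v = (t • v.1, v.2) := fun v => rfl
  have h4 : S = (L : G2 k n →ₗ[ℝ] G2 k n) '' {v | ((t • v.1, v.2) : G2 k n) ∈ S} := by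
    ext w
    constructor
    · intro hw
      refine ⟨L.symm w, ?_, L.apply_symm_apply w⟩
      show ((t • (L.symm w).1, (L.symm w).2) : G2 k n) ∈ S
      rw [← hL, L.apply_symm_apply]
      exact hw
    · rintro ⟨v, hv, rfl⟩
      exact hv
  have h5 : (volume : Measure (G2 k n)) {v | ((t • v.1, v.2) : G2 k n) ∈ S} = 0 := by
    refine measure_mono_null ?_ ht1
    intro v hv
    exact ⟨ht0, hv⟩
  rw [h4, Measure.addHaar_image_linearMap, h5, mul_zero]

end Pool.Agent.H47.NM
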