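import Pool.Agent.H47.NM.Defs
import Pool.Agent.H47.NN.ELM
import Pool.Agent.H47.NN.ITR
import Pool.Agent.H47.NN.LOC
import Pool.Agent.H47.NN.CIR

/-!
# Module LNE: on a line `t ↦ t a / b` without neutral cycles for small `t`, neutral cycles occur for a null set of `t`

As MFC and LNE of H47/NN.
-/

set_option autoImplicit false

open Filter Topology Polynomial Metric Set MeasureTheory

namespace Pool.Agent.H47.NM

open Pool.Agent.H44.Fatou Pool.Agent.H47.NN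

theorem mfin_s {d p : ℕ} {a b : Polynomial ℂ} (ha : a.natDegree ≤ d) (hb : b.natDegree ≤ d)
    (hS : ∃ ε : ℝ, 0 < ε ∧ ∀ t : ℂ, t ≠ 0 → ‖t‖ < ε →
      ∀ x μ, Cyc (C t * a) b p x μ → ‖μ‖ ≠ 1) {m : ℂ}
    (hm : ‖m‖ = 1) : {t : ℂ | ∃ x : ℕ → ℂ, Cyc (C t * a) b p x m}.Finite := by
  obtain ⟨A, B, G, hABG⟩ := mset p ha hb m
  have hset : {t : ℂ | ∃ x : ℕ → ℂ, Cyc (C t * a) b p x m}
      = {t : ℂ | ∃ z, ev2 A t z = 0 ∧ ev2 B t z = 0 ∧ ev2 G t z ≠ 0} := by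
    apply Set.ext
    intro t
    exact hABG t
  rcases elim A B G with hf | hf
  · rw [hset]
    exact hf
  · exfalso
    rw [← hset] at hf
    obtain ⟨ε, hε, hs⟩ := hS
    have hsub : (fun n : ℕ => ((ε / ((n : ℝ) + 2) : ℝ) : ℂ)) '' Set.univ ⊆
        {t : ℂ | ∃ x : ℕ → ℂ, Cyc (C t * a) b p x m}ᶜ := by
      rintro _ ⟨n, _, rfl⟩
      intro hx
      obtain ⟨x, hx⟩ := hx
      have hn : (0 : ℝ) < (n : ℝ) + 2 := by positivity
      have hpos : 0 < ε / ((n : ℝ) + 2) := div_pos hε hn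
      have hlt : ε / ((n : ℝ) + 2) < ε := by
        rw [div_lt_iff₀ hn]
        nlinarith [(Nat.cast_nonneg n : (0 : ℝ) ≤ n)]
      have h1 := (hs ((ε / ((n : ℝ) + 2) : ℝ) : ℂ)
        (by exact_mod_cast hpos.ne')
        (by rw [Complex.norm_real, Real.norm_of_nonneg hpos.le]; exact hlt)) x m hx
      exact h1 hm
    have hinj : Function.Injective (fun n : ℕ => ((ε / ((n : ℝ) + 2) : ℝ) : ℂ)) := by
      intro n k hnk
      have h1 : (ε / ((n : ℝ) + 2) : ℝ) = ε / ((k : ℝ) + 2) := Complex.ofReal_injective hnk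
      have hn : (0 : ℝ) < (n : ℝ) + 2 := by positivity
      have hk : (0 : ℝ) < (k : ℝ) + 2 := by positivity
      rw [div_eq_div_iff hn.ne' hk.ne'] at h1
      have h2 := mul_left_cancel₀ hε.ne' h1
      have h3 : (k : ℝ) = n := by linarith
      exact_mod_cast h3.symm
    exact (Set.infinite_univ.image hinj.injOn) (hf.subset hsub)

private theorem lne_loc {d p : ℕ} {a b : Polynomial ℂ} (ha : a.natDegree ≤ d) (hb : b.natDegree ≤ d)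
    (hS : ∃ ε : ℝ, 0 < ε ∧ ∀ t : ℂ, t ≠ 0 → ‖t‖ < ε →
      ∀ x μ, Cyc (C t * a) b p x μ → ‖μ‖ ≠ 1)
    {t1 m1 : ℂ} {x : ℕ → ℂ} (hc : Cyc (C t1 * a) b p x m1) (hm1 : ‖m1‖ = 1) (hm : m1 ≠ 1) :
    ∃ r : ℝ, 0 < r ∧ ∃ N : Set ℂ, volume N = 0 ∧ ∀ (t : ℂ) (y : ℕ → ℂ) (m : ℂ),
      Cyc (C t * a) b p y m → ‖m‖ = 1 → t ∈ ball t1 r → y 0 ∈ ball (x 0) r → t ∈ N := by
  obtain ⟨r, hr, Λ, hΛ, hu, he⟩ := loc (d := d) ha hb hc hm
  refine ⟨r, hr, {t | t ∈ ball t1 r ∧ ‖Λ t‖ = 1}, circ hΛ ?_, ?_⟩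
  · rintro ⟨c, hcc⟩
    have h1 : m1 = Λ t1 := hu t1 (mem_ball_self hr) x m1 hc (by simpa using hr)
    have hc1 : ‖c‖ = 1 := by rw [← hcc t1 (mem_ball_self hr), ← h1, hm1]
    have hfin := mfin_s ha hb hS hc1
    have hsub : ball t1 r ⊆ {t : ℂ | ∃ x : ℕ → ℂ, Cyc (C t * a) b p x c} := by
      intro t ht
      obtain ⟨y, hy⟩ := he t ht
      rw [hcc t ht] at hy
      exact ⟨y, hy⟩
    exact (infinite_of_mem_nhds t1 (ball_mem_nhds t1 hr)) (hfin.subset hsub)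
  · intro t y m hy hm' ht hy0
    have h2 := hu t ht y m hy (by simpa [dist_eq_norm] using mem_ball.1 hy0)
    exact ⟨ht, by rw [← h2, hm']⟩

theorem lnull_s {d p : ℕ} {a b : Polynomial ℂ} (ha : a.natDegree ≤ d) (hb : b.natDegree ≤ d)
    (hS : ∃ ε : ℝ, 0 < ε ∧ ∀ t : ℂ, t ≠ 0 → ‖t‖ < ε →
      ∀ x μ, Cyc (C t * a) b p x μ → ‖μ‖ ≠ 1) :
    volume {t : ℂ | ∃ x m, Cyc (C t * a) b p x m ∧ ‖m‖ = 1} = 0 := by
  classical
  let S : Set (ℂ × ℂ) := {q | ∃ x m, x 0 = q.2 ∧ Cyc (C q.1 * a) b p x m ∧ ‖m‖ = 1 ∧ m ≠ 1}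
  have key : ∀ q : ℂ × ℂ, ∃ r : ℝ, 0 < r ∧ ∃ N : Set ℂ, volume N = 0 ∧ (q ∈ S →
      ∀ (t : ℂ) (y : ℕ → ℂ) (m : ℂ), Cyc (C t * a) b p y m → ‖m‖ = 1 → t ∈ ball q.1 r →
        y 0 ∈ ball q.2 r → t ∈ N) := by
    intro q
    by_cases hq : q ∈ S
    · obtain ⟨x, m, hx, hc, hm, hm1⟩ := hq
      obtain ⟨r, hr, N, hN, h2⟩ := lne_loc ha hb hS hc hm hm1
      refine ⟨r, hr, N, hN, fun _ t y m' hy hm' ht hy0 => h2 t y m' hy hm' ht ?_⟩
      rw [hx]; exact hy0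
    · exact ⟨1, one_pos, ∅, measure_empty, fun hq' => absurd hq' hq⟩
  choose r hr N hN hk using key
  obtain ⟨T, hTS, hTc, hT⟩ := TopologicalSpace.countable_cover_nhdsWithin (s := S)
    (f := fun q => ball q.1 (r q) ×ˢ ball q.2 (r q)) (fun q _ =>
      mem_nhdsWithin_of_mem_nhds (prod_mem_nhds (ball_mem_nhds _ (hr q)) (ball_mem_nhds _ (hr q))))
  have h1 : volume {t : ℂ | ∃ x : ℕ → ℂ, Cyc (C t * a) b p x 1} = 0 :=
    (mfin_s ha hb hS (m := 1) (by simp)).measure_zero _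
  have h2 : volume (⋃ q ∈ T, N q) = 0 := (measure_biUnion_null_iff hTc).2 fun q _ => hN q
  refine measure_mono_null ?_ (measure_union_null h1 h2)
  rintro t ⟨x, m, hc, hm⟩
  by_cases hm1 : m = 1
  · subst hm1
    exact Or.inl ⟨x, hc⟩
  · right
    have hS : (t, x 0) ∈ S := ⟨x, m, rfl, hc, hm, hm1⟩
    have := hT hS
    simp only [mem_iUnion] at this ⊢
    obtain ⟨q, hq, hqq⟩ := this
    exact ⟨q, hq, hk q (hTS hq) t x m hc hm hqq.1 hqq.2⟩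

end Pool.Agent.H47.NM
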