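import Pool.Agent.H47.NM.SML
import Pool.Agent.H47.NM.LNE
import Pool.Agent.H47.NM.FUB
import Pool.Agent.H47.NM.MES

/-!
# Module FIN: almost no map of the family has a neutral cycle in the plane
-/

set_option autoImplicit false

open Filter Topology Polynomial Metric Set MeasureTheory

namespace Pool.Agent.H47.NM

open Pool.Agent.H44.Fatou Pool.Agent.H79.Eul Pool.Agent.H79.Par Pool.Agent.H47.NN

private theorem hyp1 {k n : ℕ} (i : Fin k) :
    volume {v : (Fin k → ℂ) × (Fin n → ℂ) | v.1 i = 0} = 0 := by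
  have h1 : {v : (Fin k → ℂ) × (Fin n → ℂ) | v.1 i = 0} = {f : Fin k → ℂ | f i = 0} ×ˢ univ := by
    ext v
    simp
  have h2 : volume {f : Fin k → ℂ | f i = 0} = 0 := by
    rw [volume_pi]
    exact Measure.pi_hyperplane (fun _ => volume) i 0
  rw [h1, Measure.volume_eq_prod, Measure.prod_prod, h2, zero_mul]

private theorem hyp2 {k n : ℕ} (i : Fin n) :
    volume {v : (Fin k → ℂ) × (Fin n → ℂ) | v.2 i = 0} = 0 := by
  have h1 : {v : (Fin k → ℂ) × (Fin n → ℂ) | v.2 i = 0} = univ ×ˢ {f : Fin n → ℂ | f i = 0} := by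
    ext v
    simp
  have h2 : volume {f : Fin n → ℂ | f i = 0} = 0 := by
    rw [volume_pi]
    exact Measure.pi_hyperplane (fun _ => volume) i 0
  rw [h1, Measure.volume_eq_prod, Measure.prod_prod, h2, mul_zero]

private theorem gen_of {d m : ℕ} {x : Em d m} (hc : IsCoprime (pol x.1) (pol x.2))
    (h1 : x.1 (Fin.last d) ≠ 0) (h2 : x.2 (Fin.last (d - m)) ≠ 0) (h3 : x.1 0 ≠ 0)
    (h4 : x.2 0 ≠ 0) : GenM d m (pol x.1) (pol x.2) where
  cop := hc
  ha := by
    refine natDegree_eq_of_le_of_coeff_ne_zero (pol_deg _) ?_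
    have := pol_coeff x.1 (Fin.last d)
    rw [Fin.val_last] at this
    rw [this]
    exact h1
  hb := by
    refine natDegree_eq_of_le_of_coeff_ne_zero (pol_deg _) ?_
    have := pol_coeff x.2 (Fin.last (d - m))
    rw [Fin.val_last] at this
    rw [this]
    exact h2
  a0 := by
    rw [← coeff_zero_eq_eval_zero]
    have := pol_coeff x.1 0
    rw [Fin.val_zero] at this
    rw [this]
    exact h3
  b0 := by
    rw [← coeff_zero_eq_eval_zero]
    have := pol_coeff x.2 0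
    rw [Fin.val_zero] at this
    rw [this]
    exact h4

private theorem gen_smul {d m : ℕ} {a b : Polynomial ℂ} {t : ℂ} (ht : t ≠ 0)
    (h : GenM d m (C t * a) b) : GenM d m a b where
  cop := h.cop.of_mul_left_right
  ha := by
    rw [← natDegree_C_mul ht]
    exact h.ha
  hb := h.hb
  a0 := by
    intro h0
    apply h.a0
    rw [eval_mul, h0, mul_zero]
  b0 := h.b0

/-- the maps of the family, with nonzero extreme coefficients, with a neutral cycle -/
private def BM (d m p : ℕ) : Set (Em d m) :=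
  ({x : Em d m | IsCoprime (pol x.1) (pol x.2) ∧
      max (pol x.1).natDegree (pol x.2).natDegree = d} ∩
    (({x : Em d m | x.1 (Fin.last d) ≠ 0} ∩ {x : Em d m | x.2 (Fin.last (d - m)) ≠ 0}) ∩
      ({x : Em d m | x.1 0 ≠ 0} ∩ {x : Em d m | x.2 0 ≠ 0}))) ∩
    {x : Em d m | ∃ y μ, Cyc (pol x.1) (pol x.2) p y μ ∧ ‖μ‖ = 1}

private theorem bm_meas {d m : ℕ} (hd : 1 ≤ d) (p : ℕ) : MeasurableSet (BM d m p) := by
  have hm1 : ∀ i : Fin (d + 1), MeasurableSet {x : Em d m | x.1 i ≠ 0} := fun i =>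
    (isOpen_compl_singleton.preimage ((continuous_apply i).comp continuous_fst)).measurableSet
  have hm2 : ∀ i : Fin (d - m + 1), MeasurableSet {x : Em d m | x.2 i ≠ 0} := fun i =>
    (isOpen_compl_singleton.preimage ((continuous_apply i).comp continuous_snd)).measurableSet
  refine (((cop_open hd).measurableSet).inter (((hm1 _).inter (hm2 _)).inter
    ((hm1 _).inter (hm2 _)))).inter ?_
  have h1 := (cs_meas d p).preimage (ex_cont d m).measurable
  refine (congrArg MeasurableSet ?_).mp h1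
  ext x
  show (∃ y μ, Cyc (pol (ex d m x).1) (pol (ex d m x).2) p y μ ∧ ‖μ‖ = 1) ↔
    ∃ y μ, Cyc (pol x.1) (pol x.2) p y μ ∧ ‖μ‖ = 1
  rw [(ex_pol x).1, (ex_pol x).2]

private theorem gen_bm {d m p : ℕ} {x : Em d m} (h : x ∈ BM d m p) :
    GenM d m (pol x.1) (pol x.2) :=
  gen_of h.1.1.1 h.1.2.1.1 h.1.2.1.2 h.1.2.2.1 h.1.2.2.2

private theorem bm_null {d m p : ℕ} (hm : 2 ≤ m) (hmd : m ≤ d) (hp : 0 < p) :
    volume (BM d m p) = 0 := by
  refine fub_m (bm_meas (by omega) p) fun v => ?_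
  by_cases hne : ∃ t : ℂ, t ≠ 0 ∧ ((t • v.1, v.2) : Em d m) ∈ BM d m p
  · obtain ⟨t0, ht0, h0⟩ := hne
    have hg := gen_bm h0
    change GenM d m (pol (t0 • v.1)) (pol v.2) at hg
    rw [pol_smul] at hg
    have hg' := gen_smul ht0 hg
    refine measure_mono_null ?_ (lnull_s (d := d) hg'.ha.le
      (by rw [hg'.hb]; omega) (small_m hm hmd hg' hp))
    rintro t ⟨-, -, x, μ, hc, hμ⟩
    change Cyc (pol (t • v.1)) (pol v.2) p x μ at hc
    rw [pol_smul] at hc
    exact ⟨x, μ, hc, hμ⟩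
  · have h1 : {t : ℂ | t ≠ 0 ∧ ((t • v.1, v.2) : Em d m) ∈ BM d m p} = ∅ := by
      rw [Set.eq_empty_iff_forall_notMem]
      intro t ht
      exact hne ⟨t, ht⟩
    exact (congrArg volume h1).trans measure_empty

theorem nn_m {d m : ℕ} (hm : 2 ≤ m) (hmd : m ≤ d) :
    volume {x : Em d m | IsCoprime (pol x.1) (pol x.2) ∧
      max (pol x.1).natDegree (pol x.2).natDegree = d ∧
      ¬ (GenM d m (pol x.1) (pol x.2) ∧
        ∀ p : ℕ, 0 < p → ∀ y μ, Cyc (pol x.1) (pol x.2) p y μ → ‖μ‖ ≠ 1)} = 0 := by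
  have hsub : {x : Em d m | IsCoprime (pol x.1) (pol x.2) ∧
      max (pol x.1).natDegree (pol x.2).natDegree = d ∧
      ¬ (GenM d m (pol x.1) (pol x.2) ∧
        ∀ p : ℕ, 0 < p → ∀ y μ, Cyc (pol x.1) (pol x.2) p y μ → ‖μ‖ ≠ 1)} ⊆
      (({x : Em d m | x.1 (Fin.last d) = 0} ∪ {x : Em d m | x.2 (Fin.last (d - m)) = 0}) ∪
        ({x : Em d m | x.1 0 = 0} ∪ {x : Em d m | x.2 0 = 0})) ∪ ⋃ p : ℕ, BM d m (p + 1) := by
    rintro x ⟨hc, hx, hn⟩
    by_cases h1 : x.1 (Fin.last d) = 0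
    · exact Or.inl (Or.inl (Or.inl h1))
    by_cases h2 : x.2 (Fin.last (d - m)) = 0
    · exact Or.inl (Or.inl (Or.inr h2))
    by_cases h3 : x.1 0 = 0
    · exact Or.inl (Or.inr (Or.inl h3))
    by_cases h4 : x.2 0 = 0
    · exact Or.inl (Or.inr (Or.inr h4))
    have hg := gen_of hc h1 h2 h3 h4
    have h6 : ¬ ∀ p : ℕ, 0 < p → ∀ y μ, Cyc (pol x.1) (pol x.2) p y μ → ‖μ‖ ≠ 1 :=
      fun h => hn ⟨hg, h⟩
    push Not at h6
    obtain ⟨p, hp, y, μ, h7, h8⟩ := h6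
    obtain ⟨q, rfl⟩ : ∃ q, p = q + 1 := ⟨p - 1, by omega⟩
    exact Or.inr (Set.mem_iUnion.2 ⟨q, ⟨⟨hc, hx⟩, ⟨h1, h2⟩, h3, h4⟩, y, μ, h7, h8⟩)
  refine measure_mono_null hsub ?_
  rw [measure_union_null_iff, measure_union_null_iff, measure_union_null_iff,
    measure_union_null_iff, measure_iUnion_null_iff]
  exact ⟨⟨⟨hyp1 _, hyp2 _⟩, ⟨hyp1 _, hyp2 _⟩⟩, fun p => bm_null hm hmd (Nat.succ_pos p)⟩

end Pool.Agent.H47.NM
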