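import Pool.Agent.H47.NM.INF
import Pool.Agent.H47.NM.FIN

/-!
# Module ARM: in the families almost every map has only attracting and repelling cycles
-/

set_option autoImplicit false

open Filter Topology Polynomial Metric Set MeasureTheory

namespace Pool.Agent.H47.NM

open Pool.Agent.H44.Fatou Pool.Agent.H32.BT Pool.Agent.H79.Eul Pool.Agent.H79.Par
open Pool.Agent.H35.EX Pool.Agent.H44.RR Pool.Agent.H56.HR Pool.Agent.H44.RC Pool.Agent.H47.RJ
open Pool.Agent.H47.NN

theorem fam_ex {d m : ℕ} (hm : 2 ≤ m) (hmd : m ≤ d) {x : Em d m}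
    (hg : GenM d m (pol x.1) (pol x.2)) : Pool.Agent.H79.GP.Fam d m (ex d m x) where
  hm := hm
  hmd := hmd
  cop := by
    rw [(ex_pol x).1, (ex_pol x).2]
    exact hg.cop
  ha := by
    rw [(ex_pol x).1]
    exact hg.ha
  hb := by
    rw [(ex_pol x).2]
    exact hg.hb

theorem ar_m {d m : ℕ} (hm : 2 ≤ m) (hmd : m ≤ d) {x : Em d m}
    (hg : GenM d m (pol x.1) (pol x.2))
    (h : ∀ p : ℕ, 0 < p → ∀ y μ, Cyc (pol x.1) (pol x.2) p y μ → ‖μ‖ ≠ 1) :
    AR (ex d m x) := by
  have hF := fam_ex hm hmd hg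
  obtain ⟨v, hv⟩ : ∃ v, v = ex d m x := ⟨_, rfl⟩
  have h1 : pol v.1 = pol x.1 := by rw [hv]; exact (ex_pol x).1
  have h2 : pol v.2 = pol x.2 := by rw [hv]; exact (ex_pol x).2
  rw [← hv] at hF ⊢
  rw [← h1, ← h2] at h
  intro p hp a ha
  have hinf := inf_sink hF hp
  have hinf1 : (Rf v)^[1] OnePoint.infty = OnePoint.infty := (inf_sink hF one_pos).1
  by_cases hai : ∃ i, (Rf v)^[i] a = OnePoint.infty
  · obtain ⟨i, hi⟩ := hai
    have hfix : ∀ j, (Rf v)^[j] OnePoint.infty = OnePoint.infty :=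
      fun j => Function.iterate_fixed hinf1 j
    have h3 : ∀ k : ℕ, (Rf v)^[p * k] a = a := by
      intro k
      rw [Function.iterate_mul]
      exact Function.iterate_fixed ha k
    have h4 : a = OnePoint.infty := by
      have h5 := h3 i
      have h6 : p * i = (p * i - i) + i := by
        have : i ≤ p * i := Nat.le_mul_of_pos_left i hp
        omega
      rw [h6, Function.iterate_add_apply, hi, hfix] at h5
      exact h5.symm
    left
    rw [h4]
    exact ⟨hinf.2.1, hinf.2.2⟩
  · push Not at hai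
    have hx : ∀ i, ∃ z : ℂ, (Rf v)^[i] a = (z : OnePoint ℂ) := fun i => by
      obtain ⟨z, hz⟩ := OnePoint.ne_infty_iff_exists.1 (hai i)
      exact ⟨z, hz.symm⟩
    choose y hy using hx
    have hs : ∀ i, Rf v (y i : OnePoint ℂ) = (y (i + 1) : OnePoint ℂ) := by
      intro i
      rw [← hy i, ← hy (i + 1), Function.iterate_succ_apply']
    have hne : ∀ i, (pol v.2).eval (y i) ≠ 0 := by
      intro i h0
      have h3 := hs i
      unfold Rf at h3
      rw [rat_coe] at h3
      unfold pt at h3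
      rw [if_pos h0] at h3
      exact OnePoint.infty_ne_coe _ h3
    have hst : ∀ i, (pol v.1).eval (y i) / (pol v.2).eval (y i) = y (i + 1) := by
      intro i
      have h3 := hs i
      unfold Rf at h3
      rw [rat_coe_of_ne (hne i)] at h3
      exact OnePoint.coe_eq_coe.1 h3
    have hc : Cyc (pol v.1) (pol v.2) p y (∏ i ∈ Finset.range p,
        (Wr (pol v.1) (pol v.2)).eval (y i) / ((pol v.2).eval (y i)) ^ 2) := by
      refine ⟨fun i _ => hne i, fun i _ => hst i, ?_, rfl⟩
      have h3 := hy p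
      have h4 := hy 0
      rw [ha] at h3
      rw [Function.iterate_zero, id_eq] at h4
      rw [h4] at h3
      exact (OnePoint.coe_eq_coe.1 h3).symm
    exact att_or_rep_c hF.cop hp ha hy hc (h p hp y _ hc)

theorem ar_ae {d m : ℕ} (hm : 2 ≤ m) (hmd : m ≤ d) :
    volume {x : Em d m | IsCoprime (pol x.1) (pol x.2) ∧
      max (pol x.1).natDegree (pol x.2).natDegree = d ∧ ¬ AR (ex d m x)} = 0 := by
  refine measure_mono_null ?_ (nn_m hm hmd)
  rintro x ⟨h1, h2, h3⟩
  exact ⟨h1, h2, fun h => h3 (ar_m hm hmd h.1 h.2)⟩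

end Pool.Agent.H47.NM
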