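import Pool.Agent.H47.NM.Defs
import Pool.Agent.H47.RJ.REP
import Pool.Agent.H79.GP.GRD

/-!
# Module INF: infinity is a sink in the Fatou set for the maps of the family

PROOF. `grd_loc hF` (H79/GP/GRD) gives `F, ρ ≤ 1` with `Rf v (pt 1 u) = pt 1 (F u)` for `‖u‖ < ρ`, `F 0 = 0`, `F` contracting by `1 / 4`; `grd_iter` the same for the iterates: `(Rf v)^[n] (pt 1 u) = pt 1 (F^[n] u)`, `‖F^[n] u - F^[n] w‖ ≤ (1 / 4) ^ n * ‖u - w‖`. `pt 1 0 = ∞`. The points `pt 1 u`, `‖u‖ < ρ`, are an open neighbourhood `U` of `∞`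
(`pt 1 u = recip u = io false u`, `io_emb false`; or `chord`: `y` with `chord ∞ y` small is `pt 1 u` with `u` small). `(Rf v)^[p] ∞ = ∞`: `u = 0`, `F^[p] 0 = 0`. `IsSink` (H32/BT/Defs): for `y = pt 1 u ∈ U`: `(Rf v)^[p * k] y = pt 1 (F^[p * k] u) → pt 1 0` (`grd_le`: `chord (pt 1 u) (pt 1 w) ≤ ‖u - w‖`; `ch_tend`, H47/RJ/CHB).
`∞ ∈ FS (Rf v) = interior {x | EqAt (Rf v) x}`: every `x = pt 1 u ∈ U` satisfies `EqAt`: for `y = pt 1 w` near `x`: `chord ((Rf v)^[n] x) ((Rf v)^[n] y) ≤ ‖F^[n] u - F^[n] w‖ ≤ ‖u - w‖ ≤ 2 * chord x y` (`grd_ge`), and `chord x y < ε / 2` for `y` near `x`.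
-/

set_option autoImplicit false

open Filter Topology Polynomial Metric Set MeasureTheory

namespace Pool.Agent.H47.NM

open Pool.Agent.H44.Fatou Pool.Agent.H32.BT Pool.Agent.H79.Eul Pool.Agent.H79.Par
open Pool.Agent.H35.EX Pool.Agent.H44.RR Pool.Agent.H56.HR Pool.Agent.H44.RC Pool.Agent.H47.RJ

theorem inf_sink {d m : ℕ} {v : E d} (hF : Pool.Agent.H79.GP.Fam d m v) {p : ℕ} (hp : 0 < p) :
    (Rf v)^[p] OnePoint.infty = OnePoint.infty ∧ IsSink (Rf v) OnePoint.infty p ∧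
      OnePoint.infty ∈ FS (Rf v) := by
  obtain ⟨F, ρ, hρ, hρ1, h1, h0, h2⟩ := Pool.Agent.H79.GP.grd_loc hF
  have hit := fun n => Pool.Agent.H79.GP.grd_iter h1 h0 h2 n
  have hinf : (OnePoint.infty : OnePoint ℂ) = pt 1 0 := by unfold pt; rw [if_pos rfl]
  have h00 : (0 : ℂ) ∈ ball (0 : ℂ) ρ := mem_ball_self hρ
  have hF0 : ∀ n, F^[n] 0 = 0 := fun n => by
    induction n with
    | zero => rfl
    | succ n ih => rw [Function.iterate_succ_apply', ih, h0]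
  have hfix : ∀ n, (Rf v)^[n] OnePoint.infty = OnePoint.infty := fun n => by
    rw [hinf, ((hit n).1 0 h00).2, hF0]
  refine ⟨hfix p, ⟨hp, hfix p, _, Pool.Agent.H79.GP.grd_nhds hρ, ?_⟩, ?_⟩
  · rintro _ ⟨u, hu, rfl⟩
    beta_reduce
    rw [ch_tend]
    have h3 : ∀ k : ℕ, chord OnePoint.infty ((Rf v)^[p * k] (pt 1 u)) ≤ (1 / 4) ^ (p * k) * ‖u‖ := by
      intro k
      rw [((hit (p * k)).1 u hu).2, hinf]
      refine (Pool.Agent.H79.GP.grd_le _ _).trans ?_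
      have h4 := (hit (p * k)).2 0 h00 u hu
      rw [hF0, zero_sub, norm_neg, zero_sub, norm_neg] at h4
      rw [zero_sub, norm_neg]
      exact h4
    have h5 : Tendsto (fun k : ℕ => (1 / 4 : ℝ) ^ (p * k) * ‖u‖) atTop (𝓝 0) := by
      have h6 : Tendsto (fun k : ℕ => (1 / 4 : ℝ) ^ (p * k)) atTop (𝓝 0) := by
        refine (tendsto_pow_atTop_nhds_zero_of_lt_one (by norm_num) (by norm_num)).comp ?_
        exact tendsto_id.const_mul_atTop' hp
      have h7 := h6.mul_const ‖u‖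
      rwa [zero_mul] at h7
    intro ε hε
    filter_upwards [h5.eventually (gt_mem_nhds hε)] with k hk
    exact (h3 k).trans_lt hk
  · rw [FS, mem_interior_iff_mem_nhds]
    filter_upwards [Pool.Agent.H79.GP.grd_nhds hρ, interior_mem_nhds.2 (Pool.Agent.H79.GP.grd_nhds hρ)]
      with x hx hxi
    obtain ⟨u, hu, rfl⟩ := hx
    beta_reduce at hxi ⊢
    intro ε hε
    filter_upwards [mem_interior_iff_mem_nhds.1 hxi, ch_ball (pt 1 u) (half_pos hε)] with y hy hy2 n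
    obtain ⟨w, hw, rfl⟩ := hy
    beta_reduce at hy2 ⊢
    rw [((hit n).1 u hu).2, ((hit n).1 w hw).2]
    refine (Pool.Agent.H79.GP.grd_le _ _).trans_lt ?_
    have h4 := (hit n).2 u hu w hw
    have h5 : (1 / 4 : ℝ) ^ n ≤ 1 := pow_le_one₀ (by norm_num) (by norm_num)
    have h6 := Pool.Agent.H79.GP.grd_ge (u := u) (v := w) ((mem_ball_zero_iff.1 hu).le.trans hρ1)
      ((mem_ball_zero_iff.1 hw).le.trans hρ1)
    have h7 : (1 / 4 : ℝ) ^ n * ‖u - w‖ ≤ ‖u - w‖ := mul_le_of_le_one_left (norm_nonneg _) h5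
    have h8 : chord (pt 1 u) (pt 1 w) < ε / 2 := hy2
    linarith

end Pool.Agent.H47.NM
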