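import Pool.Agent.H47.NN.Defs
import Pool.Agent.H79.GP.GDF

/-!
# No neutral cycles in the families with a superattracting fixed point at infinity: definitions

`Em d m`: the coefficients of pairs `a, b` with `natDegree a ≤ d`, `natDegree b ≤ d - m`. `ex`: the inclusion in `E d`. `GenM d m a b`: generic pairs.
-/

set_option autoImplicit false

open Filter Topology Polynomial Metric Set MeasureTheory

namespace Pool.Agent.H47.NM

open Pool.Agent.H44.Fatou Pool.Agent.H32.BT Pool.Agent.H79.Eul Pool.Agent.H79.Par
open Pool.Agent.H47.NN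

/-- the coefficients of the pairs `a, b` with `natDegree a ≤ d`, `natDegree b ≤ d - m` -/
abbrev Em (d m : ℕ) : Type := (Fin (d + 1) → ℂ) × (Fin (d - m + 1) → ℂ)

/-- the inclusion in `E d` -/
noncomputable def ex (d m : ℕ) (x : Em d m) : E d :=
  (x.1, fun i => if h : (i : ℕ) < d - m + 1 then x.2 ⟨i, h⟩ else 0)

/-- generic pairs of polynomials of degrees `d` and `d - m` -/
structure GenM (d m : ℕ) (a b : Polynomial ℂ) : Prop where
  cop : IsCoprime a b
  ha : a.natDegree = d
  hb : b.natDegree = d - m
  a0 : a.eval 0 ≠ 0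
  b0 : b.eval 0 ≠ 0

end Pool.Agent.H47.NM
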