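import Pool.Agent.H47.NM.Defs

/-!
# Module FAR: `a / b` near infinity and on bounded sets away from the poles

PROOF. `far_m`: let `P = a * b`, of degree `n = d + (d - m)`, `Q = X * Wr a b - C m * P` (`Wr a b = a' b - a b'`): the coefficient of `Q` of degree `n` is `d * la * lb - (d - m) * la * lb - m * la * lb = 0` (`la, lb` the leading coefficients; `natDegree Q ≤ n`), so `natDegree Q < n` or `Q = 0`. (If `n = 0`: not possible, `d ≥ m ≥ 2`.)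
So `Q z / P z → 0` as `‖z‖ → ∞` (private lemma: for `natDegree Q < natDegree P` there is `R` with `‖Q z‖ ≤ (1 / 2) ‖P z‖` for `R < ‖z‖`: write both with the reversed polynomials, `P z = z ^ n * (reverse P) (1 / z)` (`Polynomial.eval₂_reverse_mul_pow`), `(reverse P).eval 0 = leadingCoeff P ≠ 0`, continuity at 0; or by induction on `Q` / estimates of
the coefficients: `‖Q z‖ ≤ C ‖z‖ ^ (n - 1)` for `‖z‖ ≥ 1`, `‖P z‖ ≥ ‖lead P‖ ‖z‖ ^ n - C' ‖z‖ ^ (n - 1)`). Hence for `R < ‖z‖` (`R ≥ 1` large, larger than the modulus of all zeros of `a` and `b`): `‖z‖ ‖Wr z‖ ≥ m ‖P z‖ - (1 / 2) ‖P z‖ ≥ (3 / 2) ‖a z‖ ‖b z‖`.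
`away_m`: `F = {z | ‖z‖ ≤ R ∧ ∀ β, b.eval β = 0 → δ ≤ ‖z - β‖}` is compact, `b` has no zero on it (`δ ≤ ‖z - z‖ = 0` otherwise), the continuous function `‖a z‖ / ‖b z‖` is bounded on it.
-/

set_option autoImplicit false

open Filter Topology Polynomial Metric Set MeasureTheory

namespace Pool.Agent.H47.NM

open Pool.Agent.H44.Fatou Pool.Agent.H47.NN

private lemma bigO_aux (Q : Polynomial ℂ) (n : ℕ) (hQ : Q.degree < (n : WithBot ℕ)) :
    ∃ C : ℝ, 0 ≤ C ∧ ∀ z : ℂ, 1 ≤ ‖z‖ → ‖Q.eval z‖ * ‖z‖ ≤ C * ‖z‖ ^ n := by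
  by_cases h0 : Q = 0
  · refine ⟨0, le_refl _, fun z _ => ?_⟩
    simp [h0]
  · have hn : Q.natDegree < n := (Polynomial.natDegree_lt_iff_degree_lt h0).2 hQ
    refine ⟨∑ i ∈ Finset.range n, ‖Q.coeff i‖, Finset.sum_nonneg (fun i _ => norm_nonneg _), fun z hz => ?_⟩
    rw [Polynomial.eval_eq_sum_range' hn]
    calc ‖∑ i ∈ Finset.range n, Q.coeff i * z ^ i‖ * ‖z‖
        ≤ (∑ i ∈ Finset.range n, ‖Q.coeff i * z ^ i‖) * ‖z‖ :=
          mul_le_mul_of_nonneg_right (norm_sum_le _ _) (norm_nonneg _)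
      _ = ∑ i ∈ Finset.range n, ‖Q.coeff i‖ * ‖z‖ ^ (i + 1) := by
          rw [Finset.sum_mul]
          refine Finset.sum_congr rfl (fun i _ => ?_)
          rw [norm_mul, norm_pow, pow_succ]
          ring
      _ ≤ ∑ i ∈ Finset.range n, ‖Q.coeff i‖ * ‖z‖ ^ n := by
          refine Finset.sum_le_sum (fun i hi => ?_)
          refine mul_le_mul_of_nonneg_left ?_ (norm_nonneg _)
          exact pow_le_pow_right₀ hz (by have := Finset.mem_range.1 hi; omega)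
      _ = (∑ i ∈ Finset.range n, ‖Q.coeff i‖) * ‖z‖ ^ n := by
          rw [Finset.sum_mul]

private lemma lower_aux (a : Polynomial ℂ) (ha : a ≠ 0) :
    ∃ R : ℝ, 1 ≤ R ∧ ∀ z : ℂ, R < ‖z‖ →
      ‖a.leadingCoeff‖ / 2 * ‖z‖ ^ a.natDegree ≤ ‖a.eval z‖ := by
  have hc : 0 < ‖a.leadingCoeff‖ := norm_pos_iff.2 (Polynomial.leadingCoeff_ne_zero.2 ha)
  have hdeg : a.eraseLead.degree < (a.natDegree : WithBot ℕ) := by
    have := Polynomial.degree_eraseLead_lt ha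
    rwa [Polynomial.degree_eq_natDegree ha] at this
  obtain ⟨C, hC0, hC⟩ := bigO_aux a.eraseLead a.natDegree hdeg
  refine ⟨max 1 (2 * C / ‖a.leadingCoeff‖), le_max_left _ _, fun z hz => ?_⟩
  have hz1 : 1 < ‖z‖ := lt_of_le_of_lt (le_max_left _ _) hz
  have hz2 : 2 * C / ‖a.leadingCoeff‖ < ‖z‖ := lt_of_le_of_lt (le_max_right _ _) hz
  have hz0 : 0 < ‖z‖ := lt_trans one_pos hz1
  rw [div_lt_iff₀ hc] at hz2
  have hev : a.eval z = a.eraseLead.eval z + a.leadingCoeff * z ^ a.natDegree := by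
    conv_lhs => rw [← Polynomial.eraseLead_add_C_mul_X_pow a]
    rw [Polynomial.eval_add, Polynomial.eval_mul, Polynomial.eval_C, Polynomial.eval_pow, Polynomial.eval_X]
  have h1 := hC z hz1.le
  have hpow : 0 < ‖z‖ ^ a.natDegree := pow_pos hz0 _
  have h2 : ‖a.leadingCoeff‖ * ‖z‖ ^ a.natDegree - ‖a.eraseLead.eval z‖ ≤ ‖a.eval z‖ := by
    rw [hev]
    have := norm_sub_norm_le (a.leadingCoeff * z ^ a.natDegree) (-(a.eraseLead.eval z))
    rw [norm_neg, norm_mul, norm_pow, sub_neg_eq_add, add_comm (a.leadingCoeff * z ^ a.natDegree)] at this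
    exact this
  have h3 : ‖a.eraseLead.eval z‖ * ‖z‖ ≤ (‖a.leadingCoeff‖ / 2 * ‖z‖ ^ a.natDegree) * ‖z‖ := by
    refine le_trans h1 ?_
    nlinarith [mul_pos hpow hc]
  have h4 : ‖a.eraseLead.eval z‖ ≤ ‖a.leadingCoeff‖ / 2 * ‖z‖ ^ a.natDegree :=
    le_of_mul_le_mul_right h3 hz0
  linarith

private lemma small_aux (U a : Polynomial ℂ) (ha : a ≠ 0) (hU : U.degree < a.degree) {ε : ℝ} (hε : 0 < ε) :
    ∃ R : ℝ, 1 ≤ R ∧ ∀ z : ℂ, R < ‖z‖ → a.eval z ≠ 0 ∧ ‖U.eval z‖ ≤ ε * ‖a.eval z‖ := by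
  have hc : 0 < ‖a.leadingCoeff‖ := norm_pos_iff.2 (Polynomial.leadingCoeff_ne_zero.2 ha)
  rw [Polynomial.degree_eq_natDegree ha] at hU
  obtain ⟨C, hC0, hC⟩ := bigO_aux U a.natDegree hU
  obtain ⟨R, hR1, hR⟩ := lower_aux a ha
  refine ⟨max R (2 * C / (‖a.leadingCoeff‖ * ε)), le_trans hR1 (le_max_left _ _), fun z hz => ?_⟩
  have hzR : R < ‖z‖ := lt_of_le_of_lt (le_max_left _ _) hz
  have hz1 : 1 < ‖z‖ := lt_of_le_of_lt hR1 hzR
  have hz0 : 0 < ‖z‖ := lt_trans one_pos hz1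
  have hz2 : 2 * C / (‖a.leadingCoeff‖ * ε) < ‖z‖ := lt_of_le_of_lt (le_max_right _ _) hz
  rw [div_lt_iff₀ (mul_pos hc hε)] at hz2
  have h1 := hC z hz1.le
  have h2 := hR z hzR
  have hpow : 0 < ‖z‖ ^ a.natDegree := pow_pos hz0 _
  constructor
  · intro h0
    rw [h0, norm_zero] at h2
    have : 0 < ‖a.leadingCoeff‖ / 2 * ‖z‖ ^ a.natDegree := mul_pos (by linarith) hpow
    linarith
  · have h3 : ‖U.eval z‖ * ‖z‖ ≤ (ε * ‖a.eval z‖) * ‖z‖ := by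
      calc ‖U.eval z‖ * ‖z‖ ≤ C * ‖z‖ ^ a.natDegree := h1
        _ ≤ (‖z‖ * (‖a.leadingCoeff‖ * ε) / 2) * ‖z‖ ^ a.natDegree :=
            mul_le_mul_of_nonneg_right (by linarith) hpow.le
        _ = (ε * ‖z‖) * (‖a.leadingCoeff‖ / 2 * ‖z‖ ^ a.natDegree) := by ring
        _ ≤ (ε * ‖z‖) * ‖a.eval z‖ := mul_le_mul_of_nonneg_left h2 (by positivity)
        _ = (ε * ‖a.eval z‖) * ‖z‖ := by ring
    exact le_of_mul_le_mul_right h3 hz0

private lemma deg_aux (a : Polynomial ℂ) (ha : a ≠ 0) :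
    (X * derivative a - C (a.natDegree : ℂ) * a).degree < a.degree := by
  rw [Polynomial.degree_eq_natDegree ha, Polynomial.degree_lt_iff_coeff_zero]
  intro k hk
  rcases k with _ | k
  · have h0 : a.natDegree = 0 := by omega
    simp [h0, Polynomial.mul_coeff_zero]
  · rw [Polynomial.coeff_sub, Polynomial.coeff_X_mul, Polynomial.coeff_C_mul, Polynomial.coeff_derivative]
    rcases Nat.lt_or_ge a.natDegree (k + 1) with h | h
    · rw [Polynomial.coeff_eq_zero_of_natDegree_lt h]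
      ring
    · have he : a.natDegree = k + 1 := le_antisymm hk h
      rw [he]
      push_cast
      ring

theorem far_m {d m : ℕ} (hm : 2 ≤ m) (hmd : m ≤ d) {a b : Polynomial ℂ} (h : GenM d m a b) :
    ∃ R : ℝ, 1 ≤ R ∧ ∀ z : ℂ, R < ‖z‖ → a.eval z ≠ 0 ∧ z ≠ 0 ∧
      3 / 2 * (‖a.eval z‖ * ‖b.eval z‖) ≤ ‖z‖ * ‖(Wr a b).eval z‖ := by
  have ha : a ≠ 0 := by
    intro h0
    exact h.a0 (by rw [h0]; simp)
  have hb : b ≠ 0 := by
    intro h0
    exact h.b0 (by rw [h0]; simp)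
  obtain ⟨R₁, hR₁, h₁⟩ := small_aux _ a ha (deg_aux a ha) (ε := 1 / 4) (by norm_num)
  obtain ⟨R₂, hR₂, h₂⟩ := small_aux _ b hb (deg_aux b hb) (ε := 1 / 4) (by norm_num)
  refine ⟨max R₁ R₂, le_trans hR₁ (le_max_left _ _), fun z hz => ?_⟩
  obtain ⟨ha0, hU⟩ := h₁ z (lt_of_le_of_lt (le_max_left _ _) hz)
  obtain ⟨-, hV⟩ := h₂ z (lt_of_le_of_lt (le_max_right _ _) hz)
  have hz1 : 1 < ‖z‖ := lt_of_le_of_lt (le_trans hR₁ (le_max_left _ _)) hz
  have hz0 : z ≠ 0 := by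
    intro h0
    rw [h0, norm_zero] at hz1
    linarith
  refine ⟨ha0, hz0, ?_⟩
  set U : ℂ := (X * derivative a - C (a.natDegree : ℂ) * a).eval z with hUdef
  set V : ℂ := (X * derivative b - C (b.natDegree : ℂ) * b).eval z with hVdef
  have hUe : U = z * (derivative a).eval z - (d : ℂ) * a.eval z := by
    rw [hUdef, h.ha]; simp
  have hVe : V = z * (derivative b).eval z - ((d - m : ℕ) : ℂ) * b.eval z := by
    rw [hVdef, h.hb]; simp
  have hcast : ((d - m : ℕ) : ℂ) = (d : ℂ) - (m : ℂ) := by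
    rw [Nat.cast_sub hmd]
  rw [hcast] at hVe
  have hkey : z * (Wr a b).eval z = (m : ℂ) * (a.eval z * b.eval z) - (a.eval z * V - U * b.eval z) := by
    rw [hUe, hVe]
    simp only [Wr, Polynomial.eval_sub, Polynomial.eval_mul]
    ring
  have h5 : ‖z‖ * ‖(Wr a b).eval z‖ =
      ‖(m : ℂ) * (a.eval z * b.eval z) - (a.eval z * V - U * b.eval z)‖ := by
    rw [← norm_mul, hkey]
  rw [h5]
  have h6 := norm_sub_norm_le ((m : ℂ) * (a.eval z * b.eval z)) (a.eval z * V - U * b.eval z)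
  have h7 : ‖a.eval z * V - U * b.eval z‖ ≤ 1 / 2 * (‖a.eval z‖ * ‖b.eval z‖) := by
    calc ‖a.eval z * V - U * b.eval z‖ ≤ ‖a.eval z * V‖ + ‖U * b.eval z‖ := norm_sub_le _ _
      _ = ‖a.eval z‖ * ‖V‖ + ‖U‖ * ‖b.eval z‖ := by rw [norm_mul, norm_mul]
      _ ≤ ‖a.eval z‖ * (1 / 4 * ‖b.eval z‖) + (1 / 4 * ‖a.eval z‖) * ‖b.eval z‖ :=
          add_le_add (mul_le_mul_of_nonneg_left hV (norm_nonneg _))
            (mul_le_mul_of_nonneg_right hU (norm_nonneg _))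
      _ = 1 / 2 * (‖a.eval z‖ * ‖b.eval z‖) := by ring
  have h8 : 2 * (‖a.eval z‖ * ‖b.eval z‖) ≤ ‖(m : ℂ) * (a.eval z * b.eval z)‖ := by
    rw [norm_mul, norm_mul, Complex.norm_natCast]
    have : (2 : ℝ) ≤ (m : ℝ) := by exact_mod_cast hm
    exact mul_le_mul_of_nonneg_right this (by positivity)
  linarith

theorem away_m {d m : ℕ} {a b : Polynomial ℂ} (h : GenM d m a b) {δ : ℝ} (hδ : 0 < δ) (R : ℝ) :
    ∃ M : ℝ, 0 < M ∧ ∀ z : ℂ, ‖z‖ ≤ R → (∀ β, b.eval β = 0 → δ ≤ ‖z - β‖) →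
      b.eval z ≠ 0 ∧ ‖a.eval z‖ ≤ M * ‖b.eval z‖ := by
  have hbz : ∀ z : ℂ, (∀ β, b.eval β = 0 → δ ≤ ‖z - β‖) → b.eval z ≠ 0 := by
    intro z hz h0
    have := hz z h0
    rw [sub_self, norm_zero] at this
    linarith
  have hcl : IsClosed {z : ℂ | ∀ β, b.eval β = 0 → δ ≤ ‖z - β‖} := by
    have : {z : ℂ | ∀ β, b.eval β = 0 → δ ≤ ‖z - β‖}
        = ⋂ (β : ℂ) (_ : b.eval β = 0), {z : ℂ | δ ≤ ‖z - β‖} := by
      ext z
      simp
    rw [this]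
    refine isClosed_iInter (fun β => isClosed_iInter (fun _ => ?_))
    exact isClosed_le continuous_const (continuous_id.sub continuous_const).norm
  have hcomp : IsCompact (closedBall (0 : ℂ) R ∩ {z : ℂ | ∀ β, b.eval β = 0 → δ ≤ ‖z - β‖}) :=
    (isCompact_closedBall _ _).inter_right hcl
  have hcont : ContinuousOn (fun z : ℂ => ‖a.eval z‖ / ‖b.eval z‖)
      (closedBall (0 : ℂ) R ∩ {z : ℂ | ∀ β, b.eval β = 0 → δ ≤ ‖z - β‖}) := by
    refine ContinuousOn.div a.continuous.norm.continuousOn b.continuous.norm.continuousOn ?_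
    intro z hz
    exact (norm_pos_iff.2 (hbz z hz.2)).ne'
  obtain ⟨M, hM⟩ := hcomp.bddAbove_image hcont
  refine ⟨max M 1, lt_of_lt_of_le one_pos (le_max_right _ _), fun z hz hz' => ⟨hbz z hz', ?_⟩⟩
  have hb0 : 0 < ‖b.eval z‖ := norm_pos_iff.2 (hbz z hz')
  have hmem : ‖a.eval z‖ / ‖b.eval z‖ ∈ (fun z : ℂ => ‖a.eval z‖ / ‖b.eval z‖) ''
      (closedBall (0 : ℂ) R ∩ {z : ℂ | ∀ β, b.eval β = 0 → δ ≤ ‖z - β‖}) :=
    ⟨z, ⟨by simpa using hz, hz'⟩, rfl⟩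
  have h1 := hM hmem
  rw [div_le_iff₀ hb0] at h1
  refine le_trans h1 (mul_le_mul_of_nonneg_right (le_max_left _ _) hb0.le)

end Pool.Agent.H47.NM
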