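import Pool.Agent.H47.NM.Defs

/-!
# Module NEA: near the poles the logarithmic derivative is large (as SMB, H47/NN)

PROOF. The zeros of `b` are finitely many and not 0 (`h.b0`), so it is enough to find `δ` for one zero `β` and to take the minimum (with `‖β‖ / 2`; if `b` has no zero, `δ = 1`).
Fix `β`, `b.eval β = 0`. Then `a.eval β ≠ 0` (`h.cop`: a common root is impossible, `IsCoprime` gives `u a + v b = 1`). Write `b = (X - C β) ^ k * g`, `g.eval β ≠ 0`, `k ≥ 1`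
(`Polynomial.exists_eq_pow_rootMultiplicity_mul_and_not_dvd`). `Wr a b = a' b - a b'` (definition in H44/Fatou/Basic) `= (X - C β) ^ (k - 1) * w`,
`w = a' (X - C β) g - a (k g + (X - C β) g')`, `w.eval β = - k a(β) g(β) ≠ 0`. By continuity there are `δ > 0`, `c > 0` and `K` with, for `‖z - β‖ < δ`: `a.eval z ≠ 0`, `z ≠ 0` (`δ ≤ ‖β‖ / 2`),
`‖z‖ ‖w.eval z‖ ≥ c` and `‖a.eval z‖ ‖g.eval z‖ ≤ K`. Then `‖z‖ ‖Wr z‖ ≥ c ‖z - β‖ ^ (k - 1)` and `‖a z‖ ‖b z‖ ≤ K ‖z - β‖ ^ k`; make `δ` smaller so that `3 K δ ≤ c`.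
-/

set_option autoImplicit false

open Filter Topology Polynomial Metric Set MeasureTheory

namespace Pool.Agent.H47.NM

open Pool.Agent.H44.Fatou Pool.Agent.H47.NN

private theorem smb_one {d m : ℕ} {a b : Polynomial ℂ} (h : GenM d m a b) {β : ℂ}
    (hβ : b.eval β = 0) : ∀ᶠ z : ℂ in 𝓝[≠] β,
      a.eval z ≠ 0 ∧ z ≠ 0 ∧ 3 * (‖a.eval z‖ * ‖b.eval z‖) ≤ ‖z‖ * ‖(Wr a b).eval z‖ := by
  have hb : b ≠ 0 := by
    intro h0
    exact h.b0 (by rw [h0, eval_zero])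
  have hβ0 : β ≠ 0 := by
    rintro rfl
    exact h.b0 hβ
  have haβ : a.eval β ≠ 0 := by
    obtain ⟨u, v, huv⟩ := h.cop
    intro h0
    have h1 := congrArg (eval β) huv
    rw [eval_add, eval_mul, eval_mul, h0, hβ, mul_zero, mul_zero, add_zero, eval_one] at h1
    exact zero_ne_one h1
  obtain ⟨g, hg, hgd⟩ := exists_eq_pow_rootMultiplicity_mul_and_not_dvd b hb β
  have hgβ : g.eval β ≠ 0 := fun h0 => hgd (dvd_iff_isRoot.2 h0)
  have hk0 : 0 < rootMultiplicity β b := (rootMultiplicity_pos hb).2 hβ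
  obtain ⟨k, hk⟩ : ∃ k, rootMultiplicity β b = k + 1 := ⟨_, (Nat.succ_pred_eq_of_pos hk0).symm⟩
  rw [hk] at hg
  obtain ⟨w, hw⟩ : ∃ w : Polynomial ℂ, w = derivative a * ((X - C β) * g) -
      a * (C ((k : ℂ) + 1) * g + (X - C β) * derivative g) := ⟨_, rfl⟩
  have hWr : Wr a b = (X - C β) ^ k * w := by
    unfold Wr
    rw [hw]
    conv_lhs => rw [hg]
    rw [derivative_mul, derivative_pow, derivative_sub, derivative_X, derivative_C]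
    simp only [Nat.add_sub_cancel, sub_zero, mul_one, Nat.cast_add, Nat.cast_one]
    ring
  have hwβ : w.eval β ≠ 0 := by
    rw [hw]
    simp only [eval_sub, eval_mul, eval_add, eval_X, eval_C, sub_self, zero_mul, mul_zero,
      add_zero, zero_sub]
    refine neg_ne_zero.2 (mul_ne_zero haβ (mul_ne_zero ?_ hgβ))
    exact_mod_cast Nat.succ_ne_zero k
  -- continuity
  have hF : ContinuousAt (fun z : ℂ => ‖z‖ * ‖w.eval z‖ -
      3 * (‖a.eval z‖ * (‖z - β‖ * ‖g.eval z‖))) β := by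
    have h1 := w.continuous
    have h2 := a.continuous
    have h3 := g.continuous
    exact (by fun_prop : Continuous (fun z : ℂ => ‖z‖ * ‖w.eval z‖ -
      3 * (‖a.eval z‖ * (‖z - β‖ * ‖g.eval z‖)))).continuousAt
  have hF0 : 0 < (fun z : ℂ => ‖z‖ * ‖w.eval z‖ -
      3 * (‖a.eval z‖ * (‖z - β‖ * ‖g.eval z‖))) β := by
    show 0 < ‖β‖ * ‖w.eval β‖ - 3 * (‖a.eval β‖ * (‖β - β‖ * ‖g.eval β‖))
    rw [sub_self, norm_zero, zero_mul, mul_zero, mul_zero, sub_zero]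
    have := norm_pos_iff.2 hβ0
    have := norm_pos_iff.2 hwβ
    positivity
  have e1 := hF.eventually (lt_mem_nhds hF0)
  have e2 : ∀ᶠ z : ℂ in 𝓝 β, a.eval z ≠ 0 := a.continuous.continuousAt.eventually_ne haβ
  have e3 : ∀ᶠ z : ℂ in 𝓝 β, z ≠ 0 := continuousAt_id.eventually_ne hβ0
  filter_upwards [e1.filter_mono nhdsWithin_le_nhds, e2.filter_mono nhdsWithin_le_nhds,
    e3.filter_mono nhdsWithin_le_nhds] with z h1 h2 h3
  refine ⟨h2, h3, ?_⟩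
  have h4 : ‖b.eval z‖ = ‖z - β‖ ^ k * (‖z - β‖ * ‖g.eval z‖) := by
    conv_lhs => rw [hg]
    rw [eval_mul, eval_pow, eval_sub, eval_X, eval_C, norm_mul, norm_pow, pow_succ]
    ring
  have h5 : ‖(Wr a b).eval z‖ = ‖z - β‖ ^ k * ‖w.eval z‖ := by
    rw [hWr, eval_mul, eval_pow, eval_sub, eval_X, eval_C, norm_mul, norm_pow]
  rw [h4, h5]
  have h6 : 0 ≤ ‖z - β‖ ^ k := by positivity
  have h7 : 3 * (‖a.eval z‖ * (‖z - β‖ * ‖g.eval z‖)) ≤ ‖z‖ * ‖w.eval z‖ := by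
    have h8 : (0 : ℝ) < ‖z‖ * ‖w.eval z‖ - 3 * (‖a.eval z‖ * (‖z - β‖ * ‖g.eval z‖)) := h1
    linarith
  calc 3 * (‖a.eval z‖ * (‖z - β‖ ^ k * (‖z - β‖ * ‖g.eval z‖)))
      = ‖z - β‖ ^ k * (3 * (‖a.eval z‖ * (‖z - β‖ * ‖g.eval z‖))) := by ring
    _ ≤ ‖z - β‖ ^ k * (‖z‖ * ‖w.eval z‖) := mul_le_mul_of_nonneg_left h7 h6
    _ = ‖z‖ * (‖z - β‖ ^ k * ‖w.eval z‖) := by ring

theorem near_m {d m : ℕ} {a b : Polynomial ℂ} (h : GenM d m a b) :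
    ∃ δ : ℝ, 0 < δ ∧ (∀ β, b.eval β = 0 → 2 * δ ≤ ‖β‖) ∧
      ∀ z β : ℂ, b.eval β = 0 → z ≠ β → ‖z - β‖ < δ →
        a.eval z ≠ 0 ∧ z ≠ 0 ∧ 3 * (‖a.eval z‖ * ‖b.eval z‖) ≤ ‖z‖ * ‖(Wr a b).eval z‖ := by
  have hb : b ≠ 0 := by
    intro h0
    exact h.b0 (by rw [h0, eval_zero])
  have hev : ∀ᶠ δ : ℝ in 𝓝[>] 0, ∀ β ∈ {β : ℂ | b.eval β = 0}, 2 * δ ≤ ‖β‖ ∧
      ∀ z : ℂ, z ≠ β → ‖z - β‖ < δ →
        a.eval z ≠ 0 ∧ z ≠ 0 ∧ 3 * (‖a.eval z‖ * ‖b.eval z‖) ≤ ‖z‖ * ‖(Wr a b).eval z‖ := by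
    have hfin : {β : ℂ | b.eval β = 0}.Finite := by
      refine b.roots.toFinset.finite_toSet.subset fun β hβ => ?_
      rw [Finset.mem_coe, Multiset.mem_toFinset, mem_roots hb]
      exact hβ
    rw [eventually_all_finite hfin]
    intro β hβ
    have hβ0 : 0 < ‖β‖ / 2 := by
      have : β ≠ 0 := by
        rintro rfl
        exact h.b0 hβ
      have := norm_pos_iff.2 this
      positivity
    have h1 := eventually_nhdsWithin_iff.1 (smb_one h hβ)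
    obtain ⟨δ0, hδ0, hδ⟩ := Metric.eventually_nhds_iff.1 h1
    filter_upwards [Ioo_mem_nhdsGT hδ0, Ioo_mem_nhdsGT hβ0] with δ hδ1 hδ2
    refine ⟨by linarith [hδ2.2], fun z hz hzd => hδ ?_ hz⟩
    rw [dist_eq_norm]
    exact hzd.trans hδ1.2
  obtain ⟨δ, h1, h2⟩ := (hev.and self_mem_nhdsWithin).exists
  exact ⟨δ, h2, fun β hβ => (h1 β hβ).1, fun z β hβ hz hzd => (h1 β hβ).2 z hz hzd⟩

end Pool.Agent.H47.NM
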