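import Pool.Agent.H47.NM.NEA
import Pool.Agent.H47.NM.FAR

/-!
# Module SML: for small `t` the map `t a / b` has no neutral cycle in the plane

`f = a / b`, `f_t = t f`. `δ` as in `near_m`, `R` as in `far_m`, `M` as in `away_m` for `δ, R`. A point is big if it is `δ`-close to a pole or of modulus larger than `R`. `η = min δ 1`, `R` is at least `1`: points of modulus `≤ η / 2` are not big.
If a cycle has a point which is not big then, for `‖t‖` small, all its points have modulus `< η / 2` and its multiplier has modulus `< 1`. Otherwise `‖t Wr (x i)‖ / ‖b (x i)‖ ^ 2 ≥ (3 / 2) ‖x (i + 1)‖ / ‖x i‖` for all `i`, and the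
multiplier has modulus `≥ (3 / 2) ^ p`.
-/

set_option autoImplicit false

open Filter Topology Polynomial Metric Set MeasureTheory

namespace Pool.Agent.H47.NM

open Pool.Agent.H44.Fatou Pool.Agent.H47.NN

private theorem sml_tel {x : ℕ → ℂ} {n : ℕ} (h : ∀ i, i < n → x i ≠ 0) :
    ∏ i ∈ Finset.range n, ‖x (i + 1)‖ / ‖x i‖ = if n = 0 then 1 else ‖x n‖ / ‖x 0‖ := by
  induction n with
  | zero => simp
  | succ n ih =>
    rw [Finset.prod_range_succ, ih fun i hi => h i (by omega), if_neg (Nat.succ_ne_zero n)]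
    by_cases hn : n = 0
    · rw [if_pos hn, hn, one_mul]
    · rw [if_neg hn]
      have h1 : ‖x n‖ ≠ 0 := (norm_pos_iff.2 (h n (by omega))).ne'
      have h2 : ‖x 0‖ ≠ 0 := (norm_pos_iff.2 (h 0 (by omega))).ne'
      field_simp

theorem small_m {d m p : ℕ} {a b : Polynomial ℂ} (hm : 2 ≤ m) (hmd : m ≤ d) (h : GenM d m a b)
    (hp : 0 < p) :
    ∃ ε : ℝ, 0 < ε ∧ ∀ t : ℂ, t ≠ 0 → ‖t‖ < ε →
      ∀ x μ, Cyc (C t * a) b p x μ → ‖μ‖ ≠ 1 := by
  obtain ⟨δ, hδ, hδβ, hnear⟩ := near_m h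
  obtain ⟨R, hR, hfar⟩ := far_m hm hmd h
  obtain ⟨M, hM, haway⟩ := away_m h hδ R
  obtain ⟨η, hηdef⟩ : ∃ η, η = min δ 1 := ⟨_, rfl⟩
  have hη : 0 < η := by
    rw [hηdef]
    exact lt_min hδ one_pos
  have hηδ : η ≤ δ := by
    rw [hηdef]
    exact min_le_left _ _
  have hη1 : η ≤ 1 := by
    rw [hηdef]
    exact min_le_right _ _
  -- small points are away from the poles
  have hball : ∀ z : ℂ, ‖z‖ ≤ η / 2 → ‖z‖ ≤ R ∧ ∀ β, b.eval β = 0 → δ ≤ ‖z - β‖ := by
    intro z hz
    refine ⟨by linarith, ?_⟩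
    intro β hβ
    have h1 := hδβ β hβ
    have h2 : ‖β‖ ≤ ‖z‖ + ‖z - β‖ := by
      have := norm_sub_le z (z - β)
      rwa [sub_sub_cancel] at this
    linarith
  obtain ⟨M', hM'⟩ : ∃ M' : ℝ, ∀ z : ℂ, ‖z‖ ≤ η / 2 →
      ‖(Wr a b).eval z / (b.eval z) ^ 2‖ ≤ M' := by
    have hc : ContinuousOn (fun z : ℂ => (Wr a b).eval z / (b.eval z) ^ 2)
        (closedBall 0 (η / 2)) := by
      refine ContinuousOn.div (Wr a b).continuous.continuousOn
        ((b.continuous.pow 2).continuousOn) fun z hz => ?_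
      rw [mem_closedBall, dist_zero_right] at hz
      exact pow_ne_zero 2 (haway z (hball z hz).1 (hball z hz).2).1
    obtain ⟨M', hM'⟩ := (isCompact_closedBall (0 : ℂ) (η / 2)).exists_bound_of_continuousOn hc
    exact ⟨M', fun z hz => hM' z (by rwa [mem_closedBall, dist_zero_right])⟩
  refine ⟨min (η / (4 * (M + 1))) (1 / (4 * (|M'| + 1))),
    lt_min (by positivity) (by positivity), fun t ht0 ht => ?_⟩
  have ht1 : ‖t‖ < η / (4 * (M + 1)) := ht.trans_le (min_le_left _ _)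
  have ht2 : ‖t‖ < 1 / (4 * (|M'| + 1)) := ht.trans_le (min_le_right _ _)
  have hev : ∀ z, (C t * a).eval z = t * a.eval z := fun z => by rw [eval_mul, eval_C]
  -- step A
  have stepA : ∀ z : ℂ, (‖z‖ ≤ R ∧ ∀ β, b.eval β = 0 → δ ≤ ‖z - β‖) →
      ‖(C t * a).eval z / b.eval z‖ < η / 2 := by
    intro z hz
    obtain ⟨h1, h2⟩ := haway z hz.1 hz.2
    have hb : 0 < ‖b.eval z‖ := norm_pos_iff.2 h1
    rw [hev, norm_div, norm_mul, div_lt_iff₀ hb]
    rw [lt_div_iff₀ (by positivity)] at ht1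
    have h3 : ‖t‖ * M ≤ η / 4 := by nlinarith [norm_nonneg t]
    calc ‖t‖ * ‖a.eval z‖ ≤ ‖t‖ * (M * ‖b.eval z‖) :=
          mul_le_mul_of_nonneg_left h2 (norm_nonneg t)
      _ = ‖t‖ * M * ‖b.eval z‖ := by ring
      _ ≤ η / 4 * ‖b.eval z‖ := mul_le_mul_of_nonneg_right h3 hb.le
      _ < η / 2 * ‖b.eval z‖ := mul_lt_mul_of_pos_right (by linarith) hb
  have hWr : ∀ z, (Wr (C t * a) b).eval z = t * (Wr a b).eval z := by
    intro z
    unfold Wr
    rw [derivative_C_mul]
    simp only [eval_sub, eval_mul, eval_C]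
    ring
  intro x μ hc
  · have hm : ‖μ‖ = ∏ i ∈ Finset.range p, ‖t‖ * ‖(Wr a b).eval (x i) / (b.eval (x i)) ^ 2‖ := by
      rw [← hc.mul, norm_prod]
      refine Finset.prod_congr rfl fun i _ => ?_
      rw [hWr, mul_div_assoc, norm_mul]
    by_cases hN : ∃ i, i < p ∧ ‖x i‖ ≤ R ∧ ∀ β, b.eval β = 0 → δ ≤ ‖x i - β‖
    · obtain ⟨i, hi, hiN⟩ := hN
      have hstep : ∀ j, j < p → ‖x j‖ < η / 2 → ‖x (j + 1)‖ < η / 2 := by
        intro j hj hxj
        rw [← hc.step j hj]
        exact stepA _ (hball _ hxj.le)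
      have hup : ∀ j, i + 1 + j ≤ p → ‖x (i + 1 + j)‖ < η / 2 := by
        intro j
        induction j with
        | zero =>
          intro _
          rw [add_zero, ← hc.step i hi]
          exact stepA _ hiN
        | succ j ih =>
          intro hj
          exact hstep (i + 1 + j) (by omega) (ih (by omega))
      have h0 : ‖x 0‖ < η / 2 := by
        rw [← hc.per]
        have := hup (p - (i + 1)) (by omega)
        rwa [show i + 1 + (p - (i + 1)) = p by omega] at this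
      have hall : ∀ j, j ≤ p → ‖x j‖ < η / 2 := by
        intro j
        induction j with
        | zero => exact fun _ => h0
        | succ j ih => exact fun hj => hstep j (by omega) (ih (by omega))
      have hfac : ∀ j ∈ Finset.range p,
          ‖t‖ * ‖(Wr a b).eval (x j) / (b.eval (x j)) ^ 2‖ ≤ 1 / 2 := by
        intro j hj
        have h1 := hM' (x j) (hall j (Finset.mem_range.1 hj).le).le
        rw [lt_div_iff₀ (by positivity)] at ht2
        have h2 : M' ≤ |M'| := le_abs_self M'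
        have h3 := norm_nonneg t
        have h4 := abs_nonneg M'
        nlinarith
      have hle : ‖μ‖ ≤ (1 / 2) ^ p := by
        rw [hm]
        calc ∏ i ∈ Finset.range p, ‖t‖ * ‖(Wr a b).eval (x i) / (b.eval (x i)) ^ 2‖
            ≤ ∏ _i ∈ Finset.range p, (1 / 2 : ℝ) :=
              Finset.prod_le_prod (fun j _ => by positivity) hfac
          _ = (1 / 2) ^ p := by rw [Finset.prod_const, Finset.card_range]
      have hlt : ((1 : ℝ) / 2) ^ p < 1 := pow_lt_one₀ (by norm_num) (by norm_num) hp.ne'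
      exact (hle.trans_lt hlt).ne
    · push Not at hN
      have hx : ∀ i, i < p → a.eval (x i) ≠ 0 ∧ x i ≠ 0 ∧
          3 / 2 * (‖a.eval (x i)‖ * ‖b.eval (x i)‖) ≤ ‖x i‖ * ‖(Wr a b).eval (x i)‖ := by
        intro i hi
        by_cases hxR : ‖x i‖ ≤ R
        · obtain ⟨β, hβ, hd⟩ := hN i hi hxR
          obtain ⟨k1, k2, k3⟩ := hnear (x i) β hβ (by
            intro he
            exact hc.ne i hi (by rw [he]; exact hβ)) hd
          refine ⟨k1, k2, ?_⟩
          have k4 : 0 ≤ ‖a.eval (x i)‖ * ‖b.eval (x i)‖ := by positivity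
          linarith
        · push Not at hxR
          exact hfar (x i) hxR
      have hfac : ∀ i ∈ Finset.range p, 3 / 2 * (‖x (i + 1)‖ / ‖x i‖) ≤
          ‖t‖ * ‖(Wr a b).eval (x i) / (b.eval (x i)) ^ 2‖ := by
        intro i hi
        rw [Finset.mem_range] at hi
        obtain ⟨h1, h2, h3⟩ := hx i hi
        have hb : 0 < ‖b.eval (x i)‖ := norm_pos_iff.2 (hc.ne i hi)
        have hx0 : 0 < ‖x i‖ := norm_pos_iff.2 h2
        rw [← hc.step i hi, hev, norm_div, norm_mul, norm_div, norm_pow]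
        have h4 : ‖t‖ * (‖(Wr a b).eval (x i)‖ / ‖b.eval (x i)‖ ^ 2) =
            ‖t‖ * (‖x i‖ * ‖(Wr a b).eval (x i)‖) / (‖x i‖ * ‖b.eval (x i)‖ ^ 2) := by
          field_simp
        have h5 : 3 / 2 * (‖t‖ * ‖a.eval (x i)‖ / ‖b.eval (x i)‖ / ‖x i‖) =
            ‖t‖ * (3 / 2 * (‖a.eval (x i)‖ * ‖b.eval (x i)‖)) / (‖x i‖ * ‖b.eval (x i)‖ ^ 2) := by
          field_simp
        rw [h4, h5]
        exact div_le_div_of_nonneg_right (mul_le_mul_of_nonneg_left h3 (norm_nonneg t))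
          (by positivity)
      have hge : (3 / 2 : ℝ) ^ p ≤ ‖μ‖ := by
        rw [hm]
        calc (3 / 2 : ℝ) ^ p = ∏ i ∈ Finset.range p, 3 / 2 * (‖x (i + 1)‖ / ‖x i‖) := by
              rw [Finset.prod_mul_distrib, Finset.prod_const, Finset.card_range,
                sml_tel fun i hi => (hx i hi).2.1, if_neg hp.ne', hc.per,
                div_self (norm_pos_iff.2 (hx 0 hp).2.1).ne', mul_one]
          _ ≤ _ := Finset.prod_le_prod (fun i _ => by positivity) hfac
      have hgt : (1 : ℝ) < (3 / 2) ^ p := one_lt_pow₀ (by norm_num) hp.ne'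
      exact (hgt.trans_le hge).ne'

end Pool.Agent.H47.NM
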